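import Mathlib

/-!
# TWL: Gallagher's larger sieve
-/

namespace Pool.Agent.Lib.MP_e426f4_ag.TWL

open Finset

theorem pair_count (A : Finset ℕ) (q : ℕ) (ν : ℝ) (hν : ((A.image (fun a => a % q)).card : ℝ) ≤ ν)
    (hν0 : 0 < ν) :
    (A.card : ℝ) ^ 2 / ν ≤ (((A ×ˢ A).filter (fun z => z.1 % q = z.2 % q)).card : ℝ) := by
  classical
  have h1 : A.card = ∑ c ∈ A.image (fun a => a % q), (A.filter (fun a => a % q = c)).card :=
    Finset.card_eq_sum_card_image _ _
  have h2 : ((A ×ˢ A).filter (fun z => z.1 % q = z.2 % q)).card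
      = ∑ c ∈ A.image (fun a => a % q), ((A.filter (fun a => a % q = c)).card) ^ 2 := by
    rw [Finset.card_eq_sum_card_fiberwise (f := fun z : ℕ × ℕ => z.1 % q)
      (t := A.image (fun a => a % q))]
    · refine Finset.sum_congr rfl fun c _ => ?_
      rw [pow_two, ← Finset.card_product]
      congr 1
      ext z
      simp only [mem_filter, mem_product]
      constructor
      · rintro ⟨⟨⟨h1, h2⟩, h3⟩, h4⟩
        exact ⟨⟨h1, h4⟩, ⟨h2, by rw [← h3]; exact h4⟩⟩
      · rintro ⟨⟨h1, h4⟩, ⟨h2, h5⟩⟩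
        exact ⟨⟨⟨h1, h2⟩, by rw [h4, h5]⟩, h4⟩
    · intro z hz
      rw [Finset.mem_coe, mem_filter, mem_product] at hz
      exact Finset.mem_coe.2 (mem_image_of_mem _ hz.1.1)
  rw [div_le_iff₀ hν0, h2]
  push_cast
  have h3 := sq_sum_le_card_mul_sum_sq (s := A.image (fun a => a % q))
    (f := fun c => ((A.filter (fun a => a % q = c)).card : ℝ))
  have h4 : (A.card : ℝ) = ∑ c ∈ A.image (fun a => a % q), ((A.filter (fun a => a % q = c)).card : ℝ) := by
    rw [← Nat.cast_sum, ← h1]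
  rw [h4]
  refine h3.trans ?_
  rw [mul_comm]
  refine mul_le_mul_of_nonneg_left hν ?_
  exact Finset.sum_nonneg fun c _ => sq_nonneg _

theorem sum_log_dvd (Qs : Finset ℕ) (hQ : ∀ q ∈ Qs, q.Prime) (m : ℕ) (hm : m ≠ 0) :
    ∑ q ∈ Qs.filter (fun q => q ∣ m), Real.log q ≤ Real.log m := by
  have h1 : ∏ q ∈ Qs.filter (fun q => q ∣ m), q ∣ m :=
    Finset.prod_primes_dvd m (fun q hq => (hQ q (mem_filter.1 hq).1).prime)
      (fun q hq => (mem_filter.1 hq).2)
  have h2 := Nat.le_of_dvd (Nat.pos_of_ne_zero hm) h1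
  rw [← Real.log_prod (fun q hq => by
    have := (hQ q (mem_filter.1 hq).1).pos
    positivity)]
  apply Real.log_le_log
  · exact Finset.prod_pos fun q hq => by
      have := (hQ q (mem_filter.1 hq).1).pos
      positivity
  · have h3 : ((∏ q ∈ Qs.filter (fun q => q ∣ m), q : ℕ) : ℝ) ≤ (m : ℝ) := by exact_mod_cast h2
    rw [Nat.cast_prod] at h3
    exact h3

/-- **Gallagher's larger sieve.** -/
theorem larger_sieve (A : Finset ℕ) (N : ℕ) (hA : A ⊆ Icc 1 N) (Qs : Finset ℕ)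
    (hQ : ∀ q ∈ Qs, q.Prime) (ν : ℕ → ℝ)
    (hν : ∀ q ∈ Qs, 0 < ν q ∧ ((A.image (fun a => a % q)).card : ℝ) ≤ ν q) :
    (A.card : ℝ) * (∑ q ∈ Qs, Real.log q / ν q - Real.log N) ≤ ∑ q ∈ Qs, Real.log q := by
  classical
  rcases Finset.eq_empty_or_nonempty A with hAe | hAne
  · rw [hAe]
    simp only [card_empty, Nat.cast_zero, zero_mul]
    exact Finset.sum_nonneg fun q hq => Real.log_nonneg (by exact_mod_cast (hQ q hq).one_le)
  have hApos : (0 : ℝ) < A.card := by exact_mod_cast hAne.card_pos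
  have hN1 : 1 ≤ N := by
    obtain ⟨a, ha⟩ := hAne
    have := mem_Icc.1 (hA ha)
    omega
  have hlogN : 0 ≤ Real.log N := Real.log_nonneg (by exact_mod_cast hN1)
  -- double counting
  have h1 : ∑ q ∈ Qs, Real.log q * ((A.card : ℝ) ^ 2 / ν q)
      ≤ ∑ q ∈ Qs, Real.log q * (((A ×ˢ A).filter (fun z => z.1 % q = z.2 % q)).card : ℝ) := by
    refine Finset.sum_le_sum fun q hq => ?_
    refine mul_le_mul_of_nonneg_left (pair_count A q (ν q) (hν q hq).2 (hν q hq).1) ?_
    exact Real.log_nonneg (by exact_mod_cast (hQ q hq).one_le)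
  have h2 : ∑ q ∈ Qs, Real.log q * (((A ×ˢ A).filter (fun z => z.1 % q = z.2 % q)).card : ℝ)
      = ∑ z ∈ A ×ˢ A, ∑ q ∈ Qs.filter (fun q => z.1 % q = z.2 % q), Real.log q := by
    have h3 : ∀ q : ℕ, Real.log q * (((A ×ˢ A).filter (fun z => z.1 % q = z.2 % q)).card : ℝ)
        = ∑ z ∈ A ×ˢ A, if z.1 % q = z.2 % q then Real.log q else 0 := by
      intro q
      rw [← Finset.sum_filter, Finset.sum_const, nsmul_eq_mul, mul_comm]
    rw [Finset.sum_congr rfl (fun q _ => h3 q), Finset.sum_comm]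
    refine Finset.sum_congr rfl fun z _ => ?_
    rw [Finset.sum_filter]
  have h3 : ∀ z ∈ A ×ˢ A, ∑ q ∈ Qs.filter (fun q => z.1 % q = z.2 % q), Real.log q
      ≤ (if z.1 = z.2 then ∑ q ∈ Qs, Real.log q else 0) + Real.log N := by
    intro z hz
    rw [mem_product] at hz
    split_ifs with h
    · have h4 : ∑ q ∈ Qs.filter (fun q => z.1 % q = z.2 % q), Real.log q ≤ ∑ q ∈ Qs, Real.log q := by
        refine Finset.sum_le_sum_of_subset_of_nonneg (filter_subset _ _) fun q hq _ => ?_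
        exact Real.log_nonneg (by exact_mod_cast (hQ q hq).one_le)
      linarith
    · rw [zero_add]
      have ha := mem_Icc.1 (hA hz.1)
      have hb := mem_Icc.1 (hA hz.2)
      -- the difference
      have hm : ((z.1 : ℤ) - z.2).natAbs ≠ 0 := by omega
      have h4 : Qs.filter (fun q => z.1 % q = z.2 % q)
          ⊆ Qs.filter (fun q => q ∣ ((z.1 : ℤ) - z.2).natAbs) := by
        intro q hq
        rw [mem_filter] at hq ⊢
        refine ⟨hq.1, ?_⟩
        rw [← Int.natCast_dvd]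
        have h5 : (z.2 : ℤ) ≡ z.1 [ZMOD q] := by
          have : z.2 ≡ z.1 [MOD q] := hq.2.symm
          exact (Int.natCast_modEq_iff).2 this
        exact h5.dvd
      have h5 : ∑ q ∈ Qs.filter (fun q => z.1 % q = z.2 % q), Real.log q
          ≤ ∑ q ∈ Qs.filter (fun q => q ∣ ((z.1 : ℤ) - z.2).natAbs), Real.log q := by
        refine Finset.sum_le_sum_of_subset_of_nonneg h4 fun q hq _ => ?_
        exact Real.log_nonneg (by exact_mod_cast (hQ q (mem_filter.1 hq).1).one_le)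
      refine h5.trans ((sum_log_dvd Qs hQ _ hm).trans ?_)
      apply Real.log_le_log
      · have : 0 < ((z.1 : ℤ) - z.2).natAbs := Nat.pos_of_ne_zero hm
        exact_mod_cast this
      · have : ((z.1 : ℤ) - z.2).natAbs ≤ N := by omega
        exact_mod_cast this
  have h4 : ∑ z ∈ A ×ˢ A, ∑ q ∈ Qs.filter (fun q => z.1 % q = z.2 % q), Real.log q
      ≤ (A.card : ℝ) * ∑ q ∈ Qs, Real.log q + (A.card : ℝ) ^ 2 * Real.log N := by
    refine (Finset.sum_le_sum h3).trans ?_
    rw [Finset.sum_add_distrib, Finset.sum_const, nsmul_eq_mul, Finset.card_product]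
    have h5 : ∑ z ∈ A ×ˢ A, (if z.1 = z.2 then ∑ q ∈ Qs, Real.log q else 0)
        = (A.card : ℝ) * ∑ q ∈ Qs, Real.log q := by
      rw [Finset.sum_product]
      have : ∀ x ∈ A, ∑ y ∈ A, (if (x, y).1 = (x, y).2 then ∑ q ∈ Qs, Real.log q else 0)
          = ∑ q ∈ Qs, Real.log q := by
        intro x hx
        simp [hx]
      rw [Finset.sum_congr rfl this, Finset.sum_const, nsmul_eq_mul]
    rw [h5]
    push_cast
    apply le_of_eq
    ring
  have h5 : (A.card : ℝ) * ((A.card : ℝ) * (∑ q ∈ Qs, Real.log q / ν q - Real.log N))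
      ≤ (A.card : ℝ) * ∑ q ∈ Qs, Real.log q := by
    have h6 : ∑ q ∈ Qs, Real.log q * ((A.card : ℝ) ^ 2 / ν q)
        = (A.card : ℝ) ^ 2 * ∑ q ∈ Qs, Real.log q / ν q := by
      rw [Finset.mul_sum]
      refine Finset.sum_congr rfl fun q _ => ?_
      ring
    rw [h6, h2] at h1
    nlinarith [h1.trans h4]
  exact le_of_mul_le_mul_left h5 hApos

end Pool.Agent.Lib.MP_e426f4_ag.TWL
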