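import Mathlib

/-!
# TWL: for every non-square integer `m ≠ 0` there is an odd `l` with Jacobi symbol `(m/l) = -1`
-/

namespace Pool.Agent.Lib.MP_e426f4_ag.TWL

open NumberTheorySymbols

/-- a quadratic non-residue exists modulo an odd prime -/
theorem exists_legendre_neg (q : ℕ) [Fact q.Prime] (hq : q ≠ 2) :
    ∃ r : ℕ, r.Coprime q ∧ jacobiSym (r : ℤ) q = -1 := by
  have h1 : ringChar (ZMod q) ≠ 2 := by rw [ZMod.ringChar_zmod_n]; exact hq
  obtain ⟨a, ha⟩ := FiniteField.exists_nonsquare h1
  have hqs : legendreSym q (a.val : ℤ) = -1 := by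
    rw [legendreSym.eq_neg_one_iff]
    simpa using ha
  refine ⟨a.val, ?_, ?_⟩
  · rw [Nat.Coprime, Nat.gcd_comm]
    rw [← Nat.Coprime, Nat.Prime.coprime_iff_not_dvd (Fact.out)]
    intro hdvd
    have h2 : (a.val : ZMod q) = 0 := (ZMod.natCast_eq_zero_iff _ _).2 hdvd
    rw [ZMod.natCast_zmod_val] at h2
    exact ha (h2 ▸ IsSquare.zero)
  · rw [← jacobiSym.legendreSym.to_jacobiSym]
    exact hqs

theorem jacobi_sq_mul (l : ℕ) (ε : ℤ) (t s : ℕ) (hl : Nat.Coprime t l) :
    jacobiSym (ε * ((t : ℤ) ^ 2 * s)) l = jacobiSym ε l * jacobiSym s l := by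
  rw [jacobiSym.mul_left, jacobiSym.mul_left, jacobiSym.sq_one', one_mul]
  rw [Int.gcd_natCast_natCast]
  exact hl

theorem exists_jacobi_neg (m : ℤ) (hm : m ≠ 0) (hsq : ¬ IsSquare m) :
    ∃ l : ℕ, Odd l ∧ jacobiSym m l = -1 := by
  obtain ⟨s, t, hst, hs⟩ := Nat.sq_mul_squarefree m.natAbs
  have ht : 0 < t := by
    rcases Nat.eq_zero_or_pos t with h | h
    · rw [h] at hst; simp at hst; exact absurd hst.symm (by simpa using hm)
    · exact h
  have hs0 : 0 < s := by
    rcases Nat.eq_zero_or_pos s with h | h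
    · rw [h] at hst; simp at hst; exact absurd hst.symm (by simpa using hm)
    · exact h
  obtain ⟨ε, hε, hmε⟩ : ∃ ε : ℤ, (ε = 1 ∨ ε = -1) ∧ m = ε * ((t : ℤ) ^ 2 * s) := by
    rcases Int.natAbs_eq m with h | h
    · refine ⟨1, Or.inl rfl, ?_⟩
      rw [h, ← hst]; push_cast; ring
    · refine ⟨-1, Or.inr rfl, ?_⟩
      rw [h, ← hst]; push_cast; ring
  -- it suffices to find a prime `l > t` in a residue class
  have key : ∀ (q u : ℕ), q ≠ 0 → u.Coprime q → (∀ l : ℕ, l.Prime → l ≡ u [MOD q] → Odd l →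
      jacobiSym ε l * jacobiSym s l = -1) → ∃ l : ℕ, Odd l ∧ jacobiSym m l = -1 := by
    intro q u hq hu h
    obtain ⟨l, hl1, hlp, hl2⟩ := Nat.forall_exists_prime_gt_and_modEq (max t 2) hq hu
    have hodd : Odd l := hlp.odd_of_ne_two (by
      have := le_max_right t 2; omega)
    refine ⟨l, hodd, ?_⟩
    rw [hmε, jacobi_sq_mul]
    · exact h l hlp hl2 hodd
    · rw [Nat.coprime_comm, Nat.Prime.coprime_iff_not_dvd hlp]
      intro hdvd
      have := Nat.le_of_dvd ht hdvd
      have := le_max_left t 2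
      omega
  by_cases hodd : ∃ q : ℕ, q.Prime ∧ q ≠ 2 ∧ q ∣ s
  · obtain ⟨q, hqp, hq2, c, hc⟩ := hodd
    have : Fact q.Prime := ⟨hqp⟩
    have hqc : Nat.Coprime q c := by
      rw [hc] at hs
      exact Nat.coprime_of_squarefree_mul hs
    have hc0 : 0 < c := by
      rcases Nat.eq_zero_or_pos c with h | h
      · rw [h, mul_zero] at hc; omega
      · exact h
    obtain ⟨r, hr, hr'⟩ := exists_legendre_neg q hq2
    have hcop : Nat.Coprime (8 * c) q := by
      refine Nat.Coprime.mul_left ?_ hqc.symm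
      rw [show (8 : ℕ) = 2 ^ 3 by norm_num]
      exact Nat.Coprime.pow_left 3 ((Nat.coprime_primes Nat.prime_two hqp).2 (Ne.symm hq2))
    obtain ⟨u, hu1, hu2⟩ := Nat.chineseRemainder hcop 1 r
    refine key (8 * c * q) u (Nat.mul_ne_zero (by omega) hqp.ne_zero) ?_ ?_
    · refine Nat.Coprime.mul_right ?_ ?_
      · have := hu1.gcd_eq
        rw [Nat.Coprime, this]; simp
      · have := hu2.gcd_eq
        rw [Nat.Coprime, this]; exact hr
    · intro l hlp hl hlodd
      have hl8 : l ≡ 1 [MOD 8 * c] := (hl.of_mul_right _).trans hu1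
      have hlq : l ≡ r [MOD q] := (hl.of_mul_left _).trans hu2
      have hl4 : l % 4 = 1 := by
        have : l ≡ 1 [MOD 4] := (hl8.of_mul_right c).of_dvd (by norm_num)
        exact this
      have h4c : l % (4 * c) = 1 % (4 * c) := by
        have : l ≡ 1 [MOD 4 * c] := hl8.of_dvd (by exact ⟨2, by ring⟩)
        exact this
      have hJc : jacobiSym (c : ℤ) l = 1 := by
        rw [jacobiSym.mod_right' c hlodd, h4c, Nat.mod_eq_of_lt (by omega), jacobiSym.one_right]
      have hJq : jacobiSym (q : ℤ) l = -1 := by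
        rw [← jacobiSym.quadratic_reciprocity_one_mod_four hl4 (hqp.odd_of_ne_two hq2), ← hr']
        apply jacobiSym.mod_left'
        exact_mod_cast hlq
      have hJε : jacobiSym ε l = 1 := by
        rcases hε with h | h
        · rw [h, jacobiSym.one_left]
        · rw [h, jacobiSym.at_neg_one hlodd, ZMod.χ₄_nat_one_mod_four hl4]
      rw [hJε, hc]
      push_cast
      rw [jacobiSym.mul_left, hJc, hJq]; norm_num
  · push Not at hodd
    -- `s = 1` or `s = 2`
    have hs12 : s = 1 ∨ s = 2 := by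
      rcases Nat.even_or_odd s with hev | hod
      · right
        obtain ⟨c, hc⟩ := hev
        have hc2 : s = 2 * c := by omega
        have hcc : Nat.Coprime 2 c := by rw [hc2] at hs; exact Nat.coprime_of_squarefree_mul hs
        by_contra hne
        have hc1 : c ≠ 1 := by omega
        obtain ⟨q, hqp, hqc⟩ := Nat.exists_prime_and_dvd hc1
        have hq2 : q ≠ 2 := by
          rintro rfl
          have := Nat.dvd_gcd (dvd_refl 2) hqc
          rw [hcc] at this
          omega
        exact hodd q hqp hq2 (hc2 ▸ hqc.mul_left 2)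
      · left
        by_contra hne
        obtain ⟨q, hqp, hqc⟩ := Nat.exists_prime_and_dvd hne
        have hq2 : q ≠ 2 := by
          rintro rfl
          rcases hod with ⟨k, hk⟩
          omega
        exact hodd q hqp hq2 hqc
    rcases hs12 with h1 | h2
    · have hε' : ε = -1 := by
        rcases hε with h | h
        · exfalso
          apply hsq
          rw [hmε, h, h1]
          exact ⟨t, by push_cast; ring⟩
        · exact h
      refine key 4 3 (by norm_num) (by norm_num) ?_
      intro l hlp hl hlodd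
      rw [hε', h1, jacobiSym.at_neg_one hlodd, ZMod.χ₄_nat_three_mod_four hl]
      simp [jacobiSym.one_left]
    · refine key 8 5 (by norm_num) (by norm_num) ?_
      intro l hlp hl hlodd
      have hl8 : l % 8 = 5 := hl
      have hl4 : l % 4 = 1 := by omega
      have hJε : jacobiSym ε l = 1 := by
        rcases hε with h | h
        · rw [h, jacobiSym.one_left]
        · rw [h, jacobiSym.at_neg_one hlodd, ZMod.χ₄_nat_one_mod_four hl4]
      rw [hJε, h2]
      have : jacobiSym ((2 : ℕ) : ℤ) l = -1 := by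
        have h3 := jacobiSym.at_two hlodd
        rw [ZMod.χ₈_nat_eq_if_mod_eight] at h3
        rw [Nat.cast_two, h3]
        have : l % 2 ≠ 0 := by omega
        simp [this, hl8]
      rw [this]; norm_num

end Pool.Agent.Lib.MP_e426f4_ag.TWL
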