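import Pool.Agent.Lib.MP_dd84fd_nt.E2.PiSW
import Pool.Agent.Lib.MP_e426f4_ag.TWL.Neg

/-!
# TWL: (SWJ) sums of `J(p|F)` over primes in a residue class
-/

namespace Pool.Agent.Lib.MP_e426f4_ag.TWL

open Finset

theorem exists_jacobi_bot_neg (F : ℕ) (hodd : Odd F) (hns : ¬ IsSquare F) :
    ∃ c : ℕ, c.Coprime F ∧ jacobiSym (c : ℤ) F = -1 := by
  obtain ⟨s, t, hst, hs⟩ := Nat.sq_mul_squarefree F
  have hF0 : F ≠ 0 := by rintro rfl; simp at hodd
  have ht : 0 < t := by
    rcases Nat.eq_zero_or_pos t with h | h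
    · rw [h] at hst; simp at hst; exact absurd hst.symm hF0
    · exact h
  have hs1 : s ≠ 1 := by
    rintro rfl
    exact hns ⟨t, by rw [← hst]; ring⟩
  have hs0 : s ≠ 0 := hs.ne_zero
  obtain ⟨q, hqp, m, hm⟩ := Nat.exists_prime_and_dvd hs1
  have : Fact q.Prime := ⟨hqp⟩
  have hq2 : q ≠ 2 := by
    rintro rfl
    have h1 : 2 ∣ F := by rw [← hst, hm]; exact ⟨t ^ 2 * m, by ring⟩
    exact (Nat.not_even_iff_odd.2 hodd) (even_iff_two_dvd.2 h1)
  have hqm : Nat.Coprime q m := by rw [hm] at hs; exact Nat.coprime_of_squarefree_mul hs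
  obtain ⟨r, hr, hr'⟩ := exists_legendre_neg q hq2
  obtain ⟨u, hu1, hu2⟩ := Nat.chineseRemainder hqm r 1
  have hus : u.Coprime s := by
    rw [hm]
    refine Nat.Coprime.mul_right ?_ ?_
    · have := hu1.gcd_eq
      rw [Nat.Coprime, this]; exact hr
    · have := hu2.gcd_eq
      rw [Nat.Coprime, this]; simp
  obtain ⟨l, hl1, hlp, hl2⟩ := Nat.forall_exists_prime_gt_and_modEq F hs0 hus
  have hlF : l.Coprime F := by
    rw [Nat.Prime.coprime_iff_not_dvd hlp]
    intro hdvd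
    have := Nat.le_of_dvd (Nat.pos_of_ne_zero hF0) hdvd
    omega
  refine ⟨l, hlF, ?_⟩
  have : NeZero (t ^ 2) := ⟨by positivity⟩
  have : NeZero s := ⟨hs0⟩
  have hm0 : m ≠ 0 := by rintro rfl; simp at hm; exact hs0 hm
  have : NeZero m := ⟨hm0⟩
  have : NeZero q := ⟨hqp.ne_zero⟩
  rw [← hst, jacobiSym.mul_right, jacobiSym.pow_right]
  have hlt : Int.gcd (l : ℤ) t = 1 := by
    rw [Int.gcd_natCast_natCast]
    refine Nat.Coprime.coprime_dvd_right ?_ hlF
    rw [← hst]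
    exact Dvd.dvd.mul_right (dvd_pow_self t (by norm_num)) s
  rw [jacobiSym.sq_one hlt, one_mul, hm, jacobiSym.mul_right]
  have h1 : jacobiSym (l : ℤ) q = -1 := by
    rw [← hr']
    apply jacobiSym.mod_left'
    have : l ≡ r [MOD q] := by
      rw [hm] at hl2
      exact (hl2.of_mul_right _).trans hu1
    exact_mod_cast this
  have h2 : jacobiSym (l : ℤ) m = 1 := by
    rw [← jacobiSym.one_left m]
    apply jacobiSym.mod_left'
    have : l ≡ 1 [MOD m] := by
      rw [hm] at hl2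
      exact (hl2.of_mul_left _).trans hu2
    exact_mod_cast this
  rw [h1, h2]; norm_num

theorem sum_jacobi_bot (F : ℕ) (hodd : Odd F) (hns : ¬ IsSquare F) :
    ∑ c ∈ range F, jacobiSym (c : ℤ) F = 0 := by
  obtain ⟨c₀, hcop, hc₀⟩ := exists_jacobi_bot_neg F hodd hns
  have hF0 : F ≠ 0 := by rintro rfl; simp at hodd
  have : NeZero F := ⟨hF0⟩
  have hsum : ∑ c ∈ range F, jacobiSym (c : ℤ) F = ∑ x : ZMod F, jacobiSym (x.val : ℤ) F := by
    refine Finset.sum_bij' (fun l _ => (l : ZMod F)) (fun x _ => x.val) ?_ ?_ ?_ ?_ ?_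
    · intro l _; exact mem_univ _
    · intro x _; exact mem_range.2 (ZMod.val_lt x)
    · intro l hl; exact ZMod.val_cast_of_lt (mem_range.1 hl)
    · intro x _; exact ZMod.natCast_zmod_val x
    · intro l hl; rw [ZMod.val_cast_of_lt (mem_range.1 hl)]
  rw [hsum]
  set u : (ZMod F)ˣ := ZMod.unitOfCoprime c₀ hcop with hu
  have h2 : ∑ x : ZMod F, jacobiSym (x.val : ℤ) F = ∑ x : ZMod F, jacobiSym ((x * (u : ZMod F)).val : ℤ) F :=
    (Fintype.sum_equiv (Units.mulRight u) _ _ (fun x => rfl)).symm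
  have h3 : ∀ x : ZMod F, jacobiSym ((x * (u : ZMod F)).val : ℤ) F = - jacobiSym (x.val : ℤ) F := by
    intro x
    have h4 : (x * (u : ZMod F)).val = (x.val * c₀) % F := by
      rw [ZMod.val_mul, hu, ZMod.coe_unitOfCoprime, ZMod.val_natCast, Nat.mul_mod_mod]
    rw [h4]
    have h5 : jacobiSym (((x.val * c₀ % F : ℕ) : ℤ)) F = jacobiSym ((x.val * c₀ : ℕ) : ℤ) F := by
      apply jacobiSym.mod_left'
      push_cast
      exact Int.emod_emod_of_dvd _ (dvd_refl _)
    rw [h5]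
    push_cast
    rw [jacobiSym.mul_left, hc₀]; ring
  simp_rw [h3] at h2
  rw [Finset.sum_neg_distrib] at h2
  linarith

/-- the primes in `(P, 2P]` congruent to `c` modulo `r` -/
def prm (P r c : ℕ) : Finset ℕ := (Ioc P (2 * P)).filter (fun p => p.Prime ∧ p ≡ c [MOD r])

theorem prm_card (P r c : ℕ) : ((prm P r c).card : ℝ)
    = (((Icc 1 (2 * P)).filter (fun n => n.Prime ∧ n ≡ c [MOD r])).card : ℝ)
      - (((Icc 1 P).filter (fun n => n.Prime ∧ n ≡ c [MOD r])).card : ℝ) := by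
  rw [eq_sub_iff_add_eq, ← Nat.cast_add, Nat.cast_inj, prm]
  rw [← Finset.card_union_of_disjoint]
  · congr 1
    ext p
    simp only [mem_union, mem_filter, mem_Ioc, mem_Icc]
    constructor
    · rintro (⟨⟨h1, h2⟩, h3⟩ | ⟨⟨h1, h2⟩, h3⟩)
      · exact ⟨⟨by omega, h2⟩, h3⟩
      · exact ⟨⟨h1, by omega⟩, h3⟩
    · rintro ⟨⟨h1, h2⟩, h3⟩
      rcases Nat.lt_or_ge P p with h | h
      · exact Or.inl ⟨⟨h, h2⟩, h3⟩
      · exact Or.inr ⟨⟨h1, h⟩, h3⟩
  · rw [Finset.disjoint_left]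
    intro p hp hp'
    simp only [mem_filter, mem_Ioc, mem_Icc] at hp hp'
    omega

/-- `π(2P; r, c) - π(P; r, c) = Δ/φ(r) + O(4P (log P)^{-A})` -/
theorem prm_approx (A B : ℕ) : ∃ P0 : ℕ, ∀ P : ℕ, P0 ≤ P → ∀ r c : ℕ, 1 ≤ r →
    (r : ℝ) ≤ (Real.log P) ^ B → Nat.Coprime c r →
    |((prm P r c).card : ℝ) - (Pool.MP_dd84fd_nt.E2.Li (2 * P) - Pool.MP_dd84fd_nt.E2.Li P) / (Nat.totient r : ℝ)|
      ≤ 4 * P / (Real.log P) ^ A := by
  obtain ⟨X0, hX0⟩ := Pool.MP_dd84fd_nt.E2.pi_sw A B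
  refine ⟨max X0 3, ?_⟩
  intro P hP r c hr hrB hc
  have hP3 : 3 ≤ P := (le_max_right _ _).trans hP
  have hPX : X0 ≤ P := (le_max_left _ _).trans hP
  have hPpos : (0 : ℝ) < P := by positivity
  have hlogP : 0 < Real.log P := Real.log_pos (by exact_mod_cast (by omega : 1 < P))
  have hlog2 : Real.log P ≤ Real.log ((2 * P : ℕ) : ℝ) := by
    apply Real.log_le_log hPpos
    push_cast; linarith
  have hrB' : (r : ℝ) ≤ (Real.log ((2 * P : ℕ) : ℝ)) ^ B :=
    hrB.trans (pow_le_pow_left₀ hlogP.le hlog2 B)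
  have h1 := hX0 (2 * P) (by omega) r c hr hrB' hc (2 * P) le_rfl
  have h2 := hX0 (2 * P) (by omega) r c hr hrB' hc P (by omega)
  have h3 : ((2 * P : ℕ) : ℝ) / (Real.log ((2 * P : ℕ) : ℝ)) ^ A ≤ 2 * P / (Real.log P) ^ A := by
    push_cast
    refine div_le_div_of_nonneg_left (by positivity) (by positivity) ?_
    refine pow_le_pow_left₀ hlogP.le ?_ A
    have := hlog2
    push_cast at this
    exact this
  rw [prm_card]
  rw [abs_le] at h1 h2 ⊢
  rw [sub_div]
  have h4 : 4 * (P : ℝ) / (Real.log P) ^ A = 2 * P / (Real.log P) ^ A + 2 * P / (Real.log P) ^ A := by ring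
  rw [h4]
  constructor <;> linarith [h1.1, h1.2, h2.1, h2.2]

theorem log_pow_le (C : ℝ) (k : ℕ) : ∃ P0 : ℕ, ∀ P : ℕ, P0 ≤ P → C * (Real.log P) ^ k ≤ (Real.log P) ^ (k + 1) ∧
    1 ≤ Real.log P := by
  have hloglim : Filter.Tendsto (fun X : ℕ => Real.log (X : ℝ)) Filter.atTop Filter.atTop :=
    Real.tendsto_log_atTop.comp tendsto_natCast_atTop_atTop
  obtain ⟨P0, hP0⟩ := Filter.eventually_atTop.1 (hloglim.eventually_ge_atTop (max C 1))
  refine ⟨P0, fun P hP => ?_⟩
  have h1 := hP0 P hP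
  have h2 : C ≤ Real.log P := (le_max_left _ _).trans h1
  have h3 : 1 ≤ Real.log P := (le_max_right _ _).trans h1
  refine ⟨?_, h3⟩
  rw [pow_succ, mul_comm]
  exact mul_le_mul_of_nonneg_left h2 (by positivity)

/-- **(SWJ)** -/
theorem swj (A B W8 : ℕ) (hW : 1 ≤ W8) : ∃ P0 : ℕ, ∀ P : ℕ, P0 ≤ P → ∀ F v : ℕ, Odd F → ¬ IsSquare F →
    F.Coprime W8 → v.Coprime W8 → (F : ℝ) ≤ (Real.log P) ^ B →
    |∑ p ∈ prm P W8 v, (jacobiSym (p : ℤ) F : ℝ)| ≤ P / (Real.log P) ^ A := by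
  classical
  obtain ⟨P1, hP1⟩ := prm_approx (A + B + 1) (B + 1)
  obtain ⟨P2, hP2⟩ := log_pow_le (max (W8 : ℝ) 4) B
  refine ⟨max P1 (max P2 2), ?_⟩
  intro P hP F v hodd hns hFW hvW hFB
  have hPP1 : P1 ≤ P := (le_max_left _ _).trans hP
  have hPP2 : P2 ≤ P := (le_max_left _ _).trans ((le_max_right _ _).trans hP)
  obtain ⟨hlog, hlog1⟩ := hP2 P hPP2
  have hlogpos : 0 < Real.log P := by linarith
  have hF0 : F ≠ 0 := by rintro rfl; simp at hodd
  have hFpos : 0 < F := Nat.pos_of_ne_zero hF0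
  have hP0 : (0 : ℝ) ≤ P := Nat.cast_nonneg P
  -- split into classes modulo `F`
  have hsplit : ∑ p ∈ prm P W8 v, (jacobiSym (p : ℤ) F : ℝ)
      = ∑ c ∈ range F, (jacobiSym (c : ℤ) F : ℝ) * (((prm P W8 v).filter (fun p => p % F = c)).card : ℝ) := by
    rw [← Finset.sum_fiberwise_of_maps_to (g := fun p => p % F) (t := range F)
      (fun p _ => mem_range.2 (Nat.mod_lt _ hFpos))]
    refine Finset.sum_congr rfl fun c _ => ?_
    rw [mul_comm, ← nsmul_eq_mul, ← Finset.sum_const]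
    refine Finset.sum_congr rfl fun p hp => ?_
    have h1 : p % F = c := (mem_filter.1 hp).2
    have h2 : jacobiSym (p : ℤ) F = jacobiSym (c : ℤ) F := by
      apply jacobiSym.mod_left'
      rw [← h1]
      push_cast
      exact (Int.emod_emod_of_dvd _ (dvd_refl _)).symm
    rw [h2]
  set Δ : ℝ := (Pool.MP_dd84fd_nt.E2.Li (2 * P) - Pool.MP_dd84fd_nt.E2.Li P) / (Nat.totient (W8 * F) : ℝ) with hΔ
  -- each class
  have hclass : ∀ c ∈ range F, |(jacobiSym (c : ℤ) F : ℝ) *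
      (((prm P W8 v).filter (fun p => p % F = c)).card : ℝ) - (jacobiSym (c : ℤ) F : ℝ) * Δ|
      ≤ 4 * P / (Real.log P) ^ (A + B + 1) := by
    intro c hc
    by_cases hcop : Nat.Coprime c F
    · -- combine the classes
      obtain ⟨d, hd1, hd2⟩ := Nat.chineseRemainder hFW.symm v c
      have hset : (prm P W8 v).filter (fun p => p % F = c) = prm P (W8 * F) d := by
        ext p
        simp only [prm, mem_filter, mem_Ioc]
        have hcF : c % F = c := Nat.mod_eq_of_lt (mem_range.1 hc)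
        constructor
        · rintro ⟨⟨h1, h2, h3⟩, h4⟩
          refine ⟨h1, h2, ?_⟩
          rw [← Nat.modEq_and_modEq_iff_modEq_mul hFW.symm]
          refine ⟨h3.trans hd1.symm, ?_⟩
          have : p ≡ c [MOD F] := by rw [Nat.ModEq, h4, hcF]
          exact this.trans hd2.symm
        · rintro ⟨h1, h2, h3⟩
          rw [← Nat.modEq_and_modEq_iff_modEq_mul hFW.symm] at h3
          refine ⟨⟨h1, h2, h3.1.trans hd1⟩, ?_⟩
          have : p ≡ c [MOD F] := h3.2.trans hd2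
          rw [Nat.ModEq, hcF] at this
          exact this
      have hdcop : Nat.Coprime d (W8 * F) := by
        refine Nat.Coprime.mul_right ?_ ?_
        · have := hd1.gcd_eq
          rw [Nat.Coprime, this]; exact hvW
        · have := hd2.gcd_eq
          rw [Nat.Coprime, this]; exact hcop
      have hsize : ((W8 * F : ℕ) : ℝ) ≤ (Real.log P) ^ (B + 1) := by
        push_cast
        calc (W8 : ℝ) * F ≤ (max (W8 : ℝ) 4) * (Real.log P) ^ B :=
              mul_le_mul (le_max_left _ _) hFB (Nat.cast_nonneg _) (by positivity)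
          _ ≤ _ := hlog
      have h1 := hP1 P hPP1 (W8 * F) d (Nat.mul_pos hW hFpos) hsize hdcop
      rw [hset, ← mul_sub, abs_mul]
      calc |(jacobiSym (c : ℤ) F : ℝ)| * |((prm P (W8 * F) d).card : ℝ) - Δ|
          ≤ 1 * (4 * P / (Real.log P) ^ (A + B + 1)) := by
            refine mul_le_mul ?_ h1 (abs_nonneg _) zero_le_one
            rcases jacobiSym.trichotomy (c : ℤ) F with h | h | h <;> rw [h] <;> norm_num
        _ = _ := one_mul _
    · have h0 : jacobiSym (c : ℤ) F = 0 := by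
        have : NeZero F := ⟨hF0⟩
        rw [jacobiSym.eq_zero_iff_not_coprime]
        rw [Int.gcd_natCast_natCast]
        exact hcop
      rw [h0]
      simp only [Int.cast_zero, zero_mul, sub_self, abs_zero]
      positivity
  have hzero : ∑ c ∈ range F, (jacobiSym (c : ℤ) F : ℝ) * Δ = 0 := by
    rw [← Finset.sum_mul]
    have := sum_jacobi_bot F hodd hns
    have h2 : ∑ c ∈ range F, (jacobiSym (c : ℤ) F : ℝ) = 0 := by exact_mod_cast this
    rw [h2, zero_mul]
  rw [hsplit]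
  have h1 : |∑ c ∈ range F, (jacobiSym (c : ℤ) F : ℝ) * (((prm P W8 v).filter (fun p => p % F = c)).card : ℝ)|
      ≤ F * (4 * P / (Real.log P) ^ (A + B + 1)) := by
    have h2 : ∑ c ∈ range F, (jacobiSym (c : ℤ) F : ℝ) * (((prm P W8 v).filter (fun p => p % F = c)).card : ℝ)
        = ∑ c ∈ range F, ((jacobiSym (c : ℤ) F : ℝ) * (((prm P W8 v).filter (fun p => p % F = c)).card : ℝ)
          - (jacobiSym (c : ℤ) F : ℝ) * Δ) := by
      rw [Finset.sum_sub_distrib, hzero, sub_zero]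
    rw [h2]
    refine (Finset.abs_sum_le_sum_abs _ _).trans ((Finset.sum_le_sum hclass).trans ?_)
    rw [Finset.sum_const, nsmul_eq_mul, card_range]
  refine h1.trans ?_
  calc (F : ℝ) * (4 * P / (Real.log P) ^ (A + B + 1))
      ≤ (Real.log P) ^ B * (4 * P / (Real.log P) ^ (A + B + 1)) :=
        mul_le_mul_of_nonneg_right hFB (by positivity)
    _ = (4 * (Real.log P) ^ B) * P / (Real.log P) ^ (A + B + 1) := by ring
    _ ≤ ((Real.log P) ^ (B + 1)) * P / (Real.log P) ^ (A + B + 1) := by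
        refine div_le_div_of_nonneg_right ?_ (by positivity)
        refine mul_le_mul_of_nonneg_right ?_ hP0
        refine le_trans ?_ hlog
        exact mul_le_mul_of_nonneg_right (le_max_right _ _) (by positivity)
    _ = P / (Real.log P) ^ A := by
        rw [show A + B + 1 = (B + 1) + A by ring, pow_add]
        field_simp
        ring

/-- the number of primes in `(P, 2P]` in a class -/
theorem prm_card_le (W8 : ℕ) (hW : 1 ≤ W8) : ∃ P0 : ℕ, ∀ P : ℕ, P0 ≤ P → ∀ v : ℕ, v.Coprime W8 →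
    ((prm P W8 v).card : ℝ) ≤ 2 * P / (Nat.totient W8 * Real.log P) := by
  obtain ⟨P1, hP1⟩ := prm_approx 2 1
  obtain ⟨P2, hP2⟩ := log_pow_le (max (4 * W8 : ℝ) 1) 0
  refine ⟨max P1 (max P2 2), ?_⟩
  intro P hP v hv
  have hPP1 : P1 ≤ P := (le_max_left _ _).trans hP
  have hPP2 : P2 ≤ P := (le_max_left _ _).trans ((le_max_right _ _).trans hP)
  have hP2' : 2 ≤ P := (le_max_right _ _).trans ((le_max_right _ _).trans hP)
  obtain ⟨hlog, hlog1⟩ := hP2 P hPP2
  simp only [pow_zero, mul_one, zero_add, pow_one] at hlog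
  have hlogpos : 0 < Real.log P := by linarith
  have hPpos : (0 : ℝ) < P := by positivity
  have hW0 : (0 : ℝ) < W8 := by exact_mod_cast hW
  have hφ : 0 < Nat.totient W8 := Nat.totient_pos.2 hW
  have hφ' : (0 : ℝ) < Nat.totient W8 := by exact_mod_cast hφ
  have hφW : (Nat.totient W8 : ℝ) ≤ W8 := by exact_mod_cast Nat.totient_le W8
  have h4W : 4 * (W8 : ℝ) ≤ Real.log P := (le_max_left _ _).trans hlog
  have hr : (W8 : ℝ) ≤ (Real.log P) ^ 1 := by
    rw [pow_one]; linarith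
  have h1 := hP1 P hPP1 W8 v hW hr hv
  have h2 : Pool.MP_dd84fd_nt.E2.Li (2 * P) - Pool.MP_dd84fd_nt.E2.Li P ≤ P / Real.log P := by
    unfold Pool.MP_dd84fd_nt.E2.Li
    have h3 : Icc 2 (2 * P) = Icc 2 P ∪ Ioc P (2 * P) := by
      ext x
      simp only [mem_union, mem_Icc, mem_Ioc]
      omega
    rw [h3, Finset.sum_union (by
      rw [Finset.disjoint_left]
      intro x hx hx'
      simp only [mem_Icc, mem_Ioc] at hx hx'
      omega), add_sub_cancel_left]
    calc ∑ m ∈ Ioc P (2 * P), 1 / Real.log (m : ℝ) ≤ ∑ _m ∈ Ioc P (2 * P), 1 / Real.log P := by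
          refine Finset.sum_le_sum fun m hm => ?_
          refine one_div_le_one_div_of_le hlogpos ?_
          apply Real.log_le_log hPpos
          exact_mod_cast (mem_Ioc.1 hm).1.le
      _ = P / Real.log P := by
          rw [Finset.sum_const, nsmul_eq_mul, Nat.card_Ioc]
          have : 2 * P - P = P := by omega
          rw [this]; ring
  have h3 := (abs_le.1 h1).2
  have h4 : (Pool.MP_dd84fd_nt.E2.Li (2 * P) - Pool.MP_dd84fd_nt.E2.Li P) / (Nat.totient W8 : ℝ)
      ≤ P / (Nat.totient W8 * Real.log P) := by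
    calc (Pool.MP_dd84fd_nt.E2.Li (2 * P) - Pool.MP_dd84fd_nt.E2.Li P) / (Nat.totient W8 : ℝ)
        ≤ (P / Real.log P) / (Nat.totient W8 : ℝ) := div_le_div_of_nonneg_right h2 hφ'.le
      _ = _ := by rw [div_div, mul_comm (Real.log P)]
  have h5 : 4 * (P : ℝ) / (Real.log P) ^ 2 ≤ P / (Nat.totient W8 * Real.log P) := by
    rw [div_le_div_iff₀ (by positivity) (by positivity)]
    have : 4 * (Nat.totient W8 : ℝ) ≤ Real.log P := by linarith
    nlinarith [mul_le_mul_of_nonneg_left this (by positivity : (0 : ℝ) ≤ P * Real.log P)]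
  have h6 : 2 * (P : ℝ) / (Nat.totient W8 * Real.log P)
      = P / (Nat.totient W8 * Real.log P) + P / (Nat.totient W8 * Real.log P) := by ring
  rw [h6]
  linarith

end Pool.Agent.Lib.MP_e426f4_ag.TWL
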