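import Mathlib

/-!
# TWL: sums over squarefree numbers with prime factors in a given set
-/

namespace Pool.Agent.Lib.MP_e426f4_ag.TWL

open Finset

theorem sqfree_inj {a b : ℕ} (ha : Squarefree a) (hb : Squarefree b)
    (h : a.primeFactors = b.primeFactors) : a = b := by
  rw [← Nat.prod_primeFactors_of_squarefree ha, ← Nat.prod_primeFactors_of_squarefree hb, h]

/-- `∑_E ∏_{q ∣ E} x_q ≤ ∏_{q ∈ S} (1 + x_q)` -/
theorem sum_sqfree_le_prod (S E : Finset ℕ) (hE : ∀ e ∈ E, Squarefree e ∧ e.primeFactors ⊆ S)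
    (x : ℕ → ℝ) (hx : ∀ q ∈ S, 0 ≤ x q) :
    ∑ e ∈ E, ∏ q ∈ e.primeFactors, x q ≤ ∏ q ∈ S, (1 + x q) := by
  classical
  rw [Finset.prod_one_add]
  have h1 : ∑ e ∈ E, ∏ q ∈ e.primeFactors, x q
      = ∑ T ∈ E.image Nat.primeFactors, ∏ q ∈ T, x q := by
    rw [Finset.sum_image]
    intro a ha b hb hab
    exact sqfree_inj (hE a ha).1 (hE b hb).1 hab
  rw [h1]
  refine Finset.sum_le_sum_of_subset_of_nonneg ?_ ?_
  · intro T hT
    obtain ⟨e, he, rfl⟩ := mem_image.1 hT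
    exact mem_powerset.2 (hE e he).2
  · intro T hT _
    exact Finset.prod_nonneg fun q hq => hx q (mem_powerset.1 hT hq)

theorem prod_one_add_le_exp (S : Finset ℕ) (x : ℕ → ℝ) (hx : ∀ q ∈ S, 0 ≤ x q) :
    ∏ q ∈ S, (1 + x q) ≤ Real.exp (∑ q ∈ S, x q) := by
  rw [Real.exp_sum]
  refine Finset.prod_le_prod (fun q hq => by linarith [hx q hq]) fun q _ => ?_
  have := Real.add_one_le_exp (x q)
  linarith

theorem sum_sqfree_le_exp (S E : Finset ℕ) (hE : ∀ e ∈ E, Squarefree e ∧ e.primeFactors ⊆ S)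
    (x : ℕ → ℝ) (hx : ∀ q ∈ S, 0 ≤ x q) :
    ∑ e ∈ E, ∏ q ∈ e.primeFactors, x q ≤ Real.exp (∑ q ∈ S, x q) :=
  (sum_sqfree_le_prod S E hE x hx).trans (prod_one_add_le_exp S x hx)

/-- without the term `e = 1` -/
theorem sum_sqfree_le_exp_sub_one (S E : Finset ℕ) (hE : ∀ e ∈ E, Squarefree e ∧ e.primeFactors ⊆ S)
    (h1 : 1 ∉ E) (x : ℕ → ℝ) (hx : ∀ q ∈ S, 0 ≤ x q) :
    ∑ e ∈ E, ∏ q ∈ e.primeFactors, x q ≤ Real.exp (∑ q ∈ S, x q) - 1 := by
  classical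
  have h2 := sum_sqfree_le_exp S (insert 1 E) (by
    intro e he
    rw [mem_insert] at he
    rcases he with rfl | he
    · simp
    · exact hE e he) x hx
  rw [Finset.sum_insert h1] at h2
  simp only [Nat.primeFactors_one, Finset.prod_empty] at h2
  linarith

/-- `∑_{w < q ∈ S} 1/q² ≤ 1/w` -/
theorem sum_inv_sq_le (S : Finset ℕ) (w : ℕ) (hw : 1 ≤ w) (hS : ∀ q ∈ S, w < q) :
    ∑ q ∈ S, (1 : ℝ) / (q : ℝ) ^ 2 ≤ 1 / (w : ℝ) := by
  classical
  have hw0 : (0 : ℝ) < w := by exact_mod_cast hw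
  obtain ⟨N, hN⟩ : ∃ N : ℕ, S ⊆ Finset.Ioc w (w + N) := by
    refine ⟨S.sup id, fun q hq => ?_⟩
    rw [mem_Ioc]
    refine ⟨hS q hq, ?_⟩
    have : q ≤ S.sup id := Finset.le_sup (f := id) hq
    omega
  refine (Finset.sum_le_sum_of_subset_of_nonneg hN fun q _ _ => by positivity).trans ?_
  have key : ∀ N : ℕ, ∑ q ∈ Finset.Ioc w (w + N), 1 / (q : ℝ) ^ 2 ≤ 1 / w - 1 / ((w + N : ℕ) : ℝ) := by
    intro N
    induction N with
    | zero => simp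
    | succ N ih =>
      rw [← add_assoc, Finset.sum_Ioc_succ_top (by omega)]
      have h1 : (0 : ℝ) < ((w + N : ℕ) : ℝ) := by
        have : 0 < w + N := by omega
        exact_mod_cast this
      have h2 : 1 / ((w + N + 1 : ℕ) : ℝ) ^ 2 ≤ 1 / ((w + N : ℕ) : ℝ) - 1 / ((w + N + 1 : ℕ) : ℝ) := by
        have h3 : (((w + N + 1 : ℕ) : ℝ)) = ((w + N : ℕ) : ℝ) + 1 := by push_cast; ring
        rw [h3]
        set u : ℝ := ((w + N : ℕ) : ℝ)
        rw [div_sub_div _ _ h1.ne' (by positivity), div_le_div_iff₀ (by positivity) (by positivity)]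
        nlinarith
      linarith
  refine (key N).trans ?_
  have : 0 ≤ 1 / ((w + N : ℕ) : ℝ) := by positivity
  linarith

/-- `∑_{E > 1} d^{ω(E)}/E² ≤ exp(d/w) - 1` over squarefree `E` with prime factors `> w` -/
theorem sum_main (E : Finset ℕ) (w : ℕ) (hw : 1 ≤ w)
    (hE : ∀ e ∈ E, Squarefree e ∧ ∀ q ∈ e.primeFactors, w < q) (h1 : 1 ∉ E) (d : ℝ) (hd : 0 ≤ d) :
    ∑ e ∈ E, d ^ e.primeFactors.card / (e : ℝ) ^ 2 ≤ Real.exp (d / w) - 1 := by
  classical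
  set S : Finset ℕ := E.biUnion Nat.primeFactors with hS
  have hS' : ∀ q ∈ S, w < q := by
    intro q hq
    obtain ⟨e, he, hqe⟩ := mem_biUnion.1 hq
    exact (hE e he).2 q hqe
  have h2 := sum_sqfree_le_exp_sub_one S E (fun e he => ⟨(hE e he).1, fun q hq =>
    mem_biUnion.2 ⟨e, he, hq⟩⟩) h1 (fun q => d * (1 / (q : ℝ) ^ 2)) (fun q _ => by positivity)
  have h3 : ∑ e ∈ E, ∏ q ∈ e.primeFactors, d * (1 / (q : ℝ) ^ 2)
      = ∑ e ∈ E, d ^ e.primeFactors.card / (e : ℝ) ^ 2 := by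
    refine Finset.sum_congr rfl fun e he => ?_
    rw [Finset.prod_mul_distrib, Finset.prod_const, Finset.prod_div_distrib, Finset.prod_const_one,
      Finset.prod_pow]
    have : (e : ℝ) = ∏ q ∈ e.primeFactors, (q : ℝ) := by
      conv_lhs => rw [← Nat.prod_primeFactors_of_squarefree (hE e he).1]
      push_cast
      rfl
    rw [← this]
    ring
  rw [h3] at h2
  refine h2.trans ?_
  have h4 : ∑ q ∈ S, d * (1 / (q : ℝ) ^ 2) ≤ d / w := by
    rw [← Finset.mul_sum]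
    calc d * ∑ q ∈ S, 1 / (q : ℝ) ^ 2 ≤ d * (1 / w) :=
          mul_le_mul_of_nonneg_left (sum_inv_sq_le S w hw hS') hd
      _ = d / w := by ring
  have := Real.exp_le_exp.2 h4
  linarith

/-- tail: `∑_{E > Y} d^{ω(E)}/E² ≤ C_d Y^{-1/2}` over squarefree `E` -/
theorem sum_tail (d : ℝ) (hd : 0 ≤ d) : ∃ C : ℝ, 0 ≤ C ∧ ∀ (E : Finset ℕ) (Y : ℝ), 0 < Y →
    (∀ e ∈ E, Squarefree e ∧ Y ≤ e) →
    ∑ e ∈ E, d ^ e.primeFactors.card / (e : ℝ) ^ 2 ≤ C * (√Y)⁻¹ := by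
  classical
  have hsum : Summable (fun p : ℕ => d * ((p : ℝ) ^ (3 / 2 : ℝ))⁻¹) :=
    (Real.summable_nat_rpow_inv.2 (by norm_num)).mul_left d
  refine ⟨Real.exp (∑' p : ℕ, d * ((p : ℝ) ^ (3 / 2 : ℝ))⁻¹), (Real.exp_pos _).le, ?_⟩
  intro E Y hY hE
  set S : Finset ℕ := E.biUnion Nat.primeFactors with hS
  have h2 := sum_sqfree_le_exp S E (fun e he => ⟨(hE e he).1, fun q hq =>
    mem_biUnion.2 ⟨e, he, hq⟩⟩) (fun q => d * ((q : ℝ) ^ (3 / 2 : ℝ))⁻¹) (fun q _ => by positivity)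
  have h3 : ∀ e ∈ E, d ^ e.primeFactors.card / (e : ℝ) ^ 2
      ≤ (∏ q ∈ e.primeFactors, d * ((q : ℝ) ^ (3 / 2 : ℝ))⁻¹) * (√Y)⁻¹ := by
    intro e he
    have hsq := (hE e he).1
    have he0 : (0 : ℝ) < e := by exact_mod_cast Nat.pos_of_ne_zero hsq.ne_zero
    rw [Finset.prod_mul_distrib, Finset.prod_const, Finset.prod_inv_distrib]
    have h4 : ∏ q ∈ e.primeFactors, (q : ℝ) ^ (3 / 2 : ℝ) = (e : ℝ) ^ (3 / 2 : ℝ) := by
      rw [Real.finsetProd_rpow _ _ (fun q _ => Nat.cast_nonneg q)]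
      congr 1
      conv_rhs => rw [← Nat.prod_primeFactors_of_squarefree hsq]
      push_cast
      rfl
    rw [h4]
    have h5 : (e : ℝ) ^ 2 = (e : ℝ) ^ (3 / 2 : ℝ) * √e := by
      rw [Real.sqrt_eq_rpow, ← Real.rpow_add he0]
      norm_num
    rw [h5, div_eq_mul_inv, mul_inv, mul_assoc]
    refine mul_le_mul_of_nonneg_left ?_ (by positivity)
    refine mul_le_mul_of_nonneg_left ?_ (by positivity)
    rw [inv_le_inv₀ (Real.sqrt_pos.2 he0) (Real.sqrt_pos.2 hY)]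
    exact Real.sqrt_le_sqrt (hE e he).2
  refine (Finset.sum_le_sum h3).trans ?_
  rw [← Finset.sum_mul]
  refine mul_le_mul_of_nonneg_right (h2.trans ?_) (by positivity)
  exact Real.exp_le_exp.2 (hsum.sum_le_tsum _ fun p _ => by positivity)

end Pool.Agent.Lib.MP_e426f4_ag.TWL
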