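import Pool.Agent.Lib.MP_e426f4_ag.TWL.Neg

/-!
# TWL: sums of Jacobi symbols over odd `l < L` for non-square `m` are at most `4 |m|`
-/

namespace Pool.Agent.Lib.MP_e426f4_ag.TWL

open Finset

/-- `(m/l)` for odd `l`, `0` for even `l` -/
def oj (m : ℤ) (l : ℕ) : ℤ := if Odd l then jacobiSym m l else 0

theorem oj_abs_le (m : ℤ) (l : ℕ) : |oj m l| ≤ 1 := by
  unfold oj
  split_ifs
  · rcases jacobiSym.trichotomy m l with h | h | h <;> rw [h] <;> norm_num
  · norm_num

theorem oj_mod (m : ℤ) (l : ℕ) : oj m (l % (4 * m.natAbs)) = oj m l := by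
  unfold oj
  by_cases hl : Odd l
  · have h1 : Odd (l % (4 * m.natAbs)) := hl.mod_even (Even.mul_right (by decide) _)
    rw [if_pos hl, if_pos h1, ← jacobiSym.mod_right m hl]
  · have h1 : ¬ Odd (l % (4 * m.natAbs)) := by
      rw [Nat.not_odd_iff_even] at hl ⊢
      exact (Even.mod_even_iff (Even.mul_right (by decide) _)).2 hl
    rw [if_neg hl, if_neg h1]

theorem oj_mul (m : ℤ) (l l' : ℕ) : oj m (l * l') = oj m l * oj m l' := by
  unfold oj
  by_cases h : Odd l
  · by_cases h' : Odd l'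
    · rw [if_pos h, if_pos h', if_pos (h.mul h')]
      have : NeZero l := ⟨by rintro rfl; simp at h⟩
      have : NeZero l' := ⟨by rintro rfl; simp at h'⟩
      rw [jacobiSym.mul_right]
    · rw [if_neg h', if_neg (fun hh => h' (Nat.odd_mul.1 hh).2), mul_zero]
  · rw [if_neg h, if_neg (fun hh => h (Nat.odd_mul.1 hh).1), zero_mul]

theorem oj_mul_left (m m' : ℤ) (l : ℕ) : oj (m * m') l = oj m l * oj m' l := by
  unfold oj
  split_ifs
  · rw [jacobiSym.mul_left]
  · simp

/-- the sum over a full period -/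
theorem oj_period (m : ℤ) (hm : m ≠ 0) (hsq : ¬ IsSquare m) :
    ∑ l ∈ range (4 * m.natAbs), oj m l = 0 := by
  obtain ⟨l₀, hodd, hl₀⟩ := exists_jacobi_neg m hm hsq
  have hM : 0 < 4 * m.natAbs := by
    have : 0 < m.natAbs := Int.natAbs_pos.2 hm
    omega
  set M := 4 * m.natAbs with hMdef
  have : NeZero M := ⟨hM.ne'⟩
  have hcop : Nat.Coprime l₀ M := by
    have h1 : m.gcd l₀ = 1 := by
      by_contra h
      have := (jacobiSym.eq_zero_iff (a := m) (b := l₀)).2 ⟨by rintro rfl; simp at hodd, h⟩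
      rw [this] at hl₀; norm_num at hl₀
    refine Nat.Coprime.mul_right ?_ ?_
    · rw [show (4 : ℕ) = 2 ^ 2 by norm_num]
      exact Nat.Coprime.pow_right 2 hodd.coprime_two_right
    · rw [Nat.coprime_comm]
      simpa [Int.gcd] using h1
  have hsum : ∑ l ∈ range M, oj m l = ∑ x : ZMod M, oj m x.val := by
    refine Finset.sum_bij' (fun l _ => (l : ZMod M)) (fun x _ => x.val) ?_ ?_ ?_ ?_ ?_
    · intro l _; exact mem_univ _
    · intro x _; exact mem_range.2 (ZMod.val_lt x)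
    · intro l hl; exact ZMod.val_cast_of_lt (mem_range.1 hl)
    · intro x _; exact ZMod.natCast_zmod_val x
    · intro l hl; rw [ZMod.val_cast_of_lt (mem_range.1 hl)]
  rw [hsum]
  set u : (ZMod M)ˣ := ZMod.unitOfCoprime l₀ hcop with hu
  have h2 : ∑ x : ZMod M, oj m x.val = ∑ x : ZMod M, oj m (x * (u : ZMod M)).val :=
    (Fintype.sum_equiv (Units.mulRight u) _ _ (fun x => rfl)).symm
  have h3 : ∀ x : ZMod M, oj m (x * (u : ZMod M)).val = - oj m x.val := by
    intro x
    have h4 : (x * (u : ZMod M)).val = (x.val * l₀) % M := by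
      rw [ZMod.val_mul, hu, ZMod.coe_unitOfCoprime, ZMod.val_natCast, Nat.mul_mod_mod]
    rw [h4, oj_mod, oj_mul]
    have : oj m l₀ = -1 := by unfold oj; rw [if_pos hodd, hl₀]
    rw [this]; ring
  simp_rw [h3] at h2
  rw [Finset.sum_neg_distrib] at h2
  linarith

/-- **Trivial Pólya–Vinogradov.** -/
theorem oj_sum_le (m : ℤ) (hm : m ≠ 0) (hsq : ¬ IsSquare m) (L : ℕ) :
    |∑ l ∈ range L, oj m l| ≤ 4 * |m| := by
  have hM : 0 < 4 * m.natAbs := by
    have : 0 < m.natAbs := Int.natAbs_pos.2 hm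
    omega
  have h1 : ∀ k : ℕ, ∑ l ∈ range (4 * m.natAbs * k), oj m l = 0 := by
    intro k
    induction k with
    | zero => simp
    | succ k ih =>
      rw [Nat.mul_succ, Finset.sum_range_add, ih, zero_add]
      rw [← oj_period m hm hsq]
      refine Finset.sum_congr rfl fun l _ => ?_
      rw [← oj_mod m (4 * m.natAbs * k + l), Nat.mul_add_mod, oj_mod]
  have h2 : L = 4 * m.natAbs * (L / (4 * m.natAbs)) + L % (4 * m.natAbs) := (Nat.div_add_mod _ _).symm
  have h3 : |∑ l ∈ range L, oj m l| ≤ ((L % (4 * m.natAbs) : ℕ) : ℤ) := by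
    conv_lhs => rw [h2]
    rw [Finset.sum_range_add, h1, zero_add]
    refine (Finset.abs_sum_le_sum_abs _ _).trans ?_
    refine (Finset.sum_le_sum fun l _ => oj_abs_le m _).trans ?_
    simp
  refine h3.trans ?_
  have h4 : L % (4 * m.natAbs) ≤ 4 * m.natAbs := (Nat.mod_lt _ hM).le
  have h5 : (4 * |m| : ℤ) = ((4 * m.natAbs : ℕ) : ℤ) := by
    push_cast; rfl
  rw [h5]
  exact_mod_cast h4

end Pool.Agent.Lib.MP_e426f4_ag.TWL
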