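import Pool.Agent.Lib.MP_e426f4_ag.TWL.Fiber
import Pool.Agent.Lib.MP_e426f4_ag.TWL.Period

/-!
# TWL: large values of character sums over primes (Halász–Montgomery with the trivial period bound)

`S` a set of odd primes `≤ P`, `M` a set of non-zero integers, pairwise inequivalent modulo squares,
`|m| ≤ Q`, `|∑_{p ∈ S} (m/p)| ≥ V` for all `m ∈ M`.  Then for all `k`:
`(V^k |M|)² ≤ k! |S|^k (|M| (P^k + 1) + 4 Q² |M|²)`.
-/

namespace Pool.Agent.Lib.MP_e426f4_ag.TWL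

open Finset

/-- the number of ordered factorisations of `l` into `k` primes of `S` -/
def fac (S : Finset ℕ) (k l : ℕ) : ℕ :=
  ((Fintype.piFinset (fun _ : Fin k => S)).filter (fun g => ∏ i, g i = l)).card

theorem oj_prod (m : ℤ) {k : ℕ} (g : Fin k → ℕ) : oj m (∏ i, g i) = ∏ i, oj m (g i) := by
  induction k with
  | zero => simp [oj]
  | succ k ih => rw [Fin.prod_univ_succ, Fin.prod_univ_succ, oj_mul, ih]

theorem pow_sum_eq (S : Finset ℕ) (P k : ℕ) (hS : ∀ p ∈ S, p ≤ P) (m : ℤ) :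
    (∑ p ∈ S, (oj m p : ℝ)) ^ k = ∑ l ∈ range (P ^ k + 1), (fac S k l : ℝ) * (oj m l : ℝ) := by
  classical
  have h1 : (∑ p ∈ S, (oj m p : ℝ)) ^ k
      = ∑ g ∈ Fintype.piFinset (fun _ : Fin k => S), (oj m (∏ i, g i) : ℝ) := by
    rw [← Fin.prod_const, Finset.prod_univ_sum]
    refine Finset.sum_congr rfl fun g _ => ?_
    rw [oj_prod]; push_cast; rfl
  rw [h1]
  have hmaps : ∀ g ∈ Fintype.piFinset (fun _ : Fin k => S), ∏ i, g i ∈ range (P ^ k + 1) := by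
    intro g hg
    rw [Fintype.mem_piFinset] at hg
    rw [mem_range, Nat.lt_succ_iff]
    calc ∏ i, g i ≤ ∏ _i : Fin k, P := Finset.prod_le_prod' fun i _ => hS _ (hg i)
      _ = P ^ k := by simp
  rw [← Finset.sum_fiberwise_of_maps_to hmaps]
  refine Finset.sum_congr rfl fun l _ => ?_
  unfold fac
  rw [← nsmul_eq_mul, ← Finset.sum_const]
  refine Finset.sum_congr rfl fun g hg => ?_
  rw [(mem_filter.1 hg).2]

theorem sum_fac_sq (S : Finset ℕ) (hS : ∀ p ∈ S, p.Prime) (P k : ℕ) (hSP : ∀ p ∈ S, p ≤ P) :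
    ∑ l ∈ range (P ^ k + 1), (fac S k l : ℝ) ^ 2 ≤ (k.factorial : ℝ) * (S.card : ℝ) ^ k := by
  classical
  have h1 : ∑ l ∈ range (P ^ k + 1), fac S k l = S.card ^ k := by
    unfold fac
    rw [← Finset.card_eq_sum_card_fiberwise (s := Fintype.piFinset (fun _ : Fin k => S))
      (t := range (P ^ k + 1)) (f := fun g => ∏ i, g i)]
    · rw [Fintype.card_piFinset]; simp
    · intro g hg
      rw [Finset.mem_coe, Fintype.mem_piFinset] at hg
      rw [Finset.mem_coe, mem_range, Nat.lt_succ_iff]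
      calc ∏ i, g i ≤ ∏ _i : Fin k, P := Finset.prod_le_prod' fun i _ => hSP _ (hg i)
        _ = P ^ k := by simp
  calc ∑ l ∈ range (P ^ k + 1), (fac S k l : ℝ) ^ 2
      ≤ ∑ l ∈ range (P ^ k + 1), (k.factorial : ℝ) * (fac S k l : ℝ) := by
        refine Finset.sum_le_sum fun l _ => ?_
        rw [pow_two]
        refine mul_le_mul_of_nonneg_right ?_ (Nat.cast_nonneg _)
        exact_mod_cast fiber_le S hS k l
    _ = (k.factorial : ℝ) * (S.card : ℝ) ^ k := by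
        rw [← Finset.mul_sum, ← Nat.cast_sum, h1]; push_cast; ring

/-- duality: mean square of `∑_m s_m (m/l)` over `l < L` -/
theorem dual (M : Finset ℤ) (Q : ℝ) (hM : ∀ m ∈ M, m ≠ 0 ∧ |(m : ℝ)| ≤ Q)
    (hsq : ∀ m ∈ M, ∀ m' ∈ M, m ≠ m' → ¬ IsSquare (m * m')) (s : ℤ → ℝ) (hs : ∀ m, |s m| ≤ 1) (L : ℕ) :
    ∑ l ∈ range L, (∑ m ∈ M, s m * (oj m l : ℝ)) ^ 2
      ≤ (M.card : ℝ) * L + 4 * Q ^ 2 * (M.card : ℝ) ^ 2 := by
  classical
  have h1 : ∑ l ∈ range L, (∑ m ∈ M, s m * (oj m l : ℝ)) ^ 2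
      = ∑ m ∈ M, ∑ m' ∈ M, s m * s m' * ∑ l ∈ range L, (oj (m * m') l : ℝ) := by
    have h2 : ∀ l, (∑ m ∈ M, s m * (oj m l : ℝ)) ^ 2
        = ∑ m ∈ M, ∑ m' ∈ M, s m * s m' * (oj (m * m') l : ℝ) := by
      intro l
      rw [pow_two, Finset.sum_mul_sum]
      refine Finset.sum_congr rfl fun m _ => Finset.sum_congr rfl fun m' _ => ?_
      rw [oj_mul_left]; push_cast; ring
    simp_rw [h2]
    rw [Finset.sum_comm]
    refine Finset.sum_congr rfl fun m _ => ?_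
    rw [Finset.sum_comm]
    refine Finset.sum_congr rfl fun m' _ => ?_
    rw [Finset.mul_sum]
  rw [h1]
  have h3 : ∀ m ∈ M, ∀ m' ∈ M, s m * s m' * ∑ l ∈ range L, (oj (m * m') l : ℝ)
      ≤ (if m = m' then (L : ℝ) else 0) + 4 * Q ^ 2 := by
    intro m hm m' hm'
    have hss : |s m * s m'| ≤ 1 := by
      rw [abs_mul]; exact mul_le_one₀ (hs m) (abs_nonneg _) (hs m')
    have hQ : 0 ≤ 4 * Q ^ 2 := by positivity
    split_ifs with h
    · have h4 : |∑ l ∈ range L, (oj (m * m') l : ℝ)| ≤ L := by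
        refine (Finset.abs_sum_le_sum_abs _ _).trans ?_
        refine (Finset.sum_le_sum (g := fun _ => (1 : ℝ)) fun l _ => ?_).trans (by simp)
        exact_mod_cast oj_abs_le (m * m') l
      have h5 : s m * s m' * ∑ l ∈ range L, (oj (m * m') l : ℝ) ≤ 1 * L := by
        refine (le_abs_self _).trans ?_
        rw [abs_mul]
        exact mul_le_mul hss h4 (abs_nonneg _) zero_le_one
      linarith
    · have h4 : |∑ l ∈ range L, (oj (m * m') l : ℝ)| ≤ 4 * Q ^ 2 := by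
        have h5 := oj_sum_le (m * m') (mul_ne_zero (hM m hm).1 (hM m' hm').1) (hsq m hm m' hm' h) L
        have h6 : |∑ l ∈ range L, (oj (m * m') l : ℝ)| ≤ 4 * |(m : ℝ) * m'| := by
          exact_mod_cast h5
        refine h6.trans ?_
        rw [abs_mul, pow_two]
        have := mul_le_mul (hM m hm).2 (hM m' hm').2 (abs_nonneg _)
          ((abs_nonneg _).trans (hM m hm).2)
        linarith
      have h5 : s m * s m' * ∑ l ∈ range L, (oj (m * m') l : ℝ) ≤ 1 * (4 * Q ^ 2) := by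
        refine (le_abs_self _).trans ?_
        rw [abs_mul]
        exact mul_le_mul hss h4 (abs_nonneg _) zero_le_one
      linarith
  refine (Finset.sum_le_sum fun m hm => Finset.sum_le_sum fun m' hm' => h3 m hm m' hm').trans ?_
  simp only [Finset.sum_add_distrib, Finset.sum_ite_eq, Finset.sum_const, nsmul_eq_mul]
  have h7 : ∑ x ∈ M, (if x ∈ M then (L : ℝ) else 0) = M.card * L := by
    rw [Finset.sum_congr rfl (fun x hx => if_pos hx)]; simp
  rw [h7]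
  ring_nf
  exact le_refl _

theorem large_values (S : Finset ℕ) (P : ℕ) (hS : ∀ p ∈ S, p.Prime ∧ p ≤ P) (k : ℕ)
    (M : Finset ℤ) (Q : ℝ) (hM : ∀ m ∈ M, m ≠ 0 ∧ |(m : ℝ)| ≤ Q)
    (hsq : ∀ m ∈ M, ∀ m' ∈ M, m ≠ m' → ¬ IsSquare (m * m')) (V : ℝ) (hV : 0 ≤ V)
    (h : ∀ m ∈ M, V ≤ |∑ p ∈ S, (oj m p : ℝ)|) :
    (V ^ k * M.card) ^ 2 ≤ (k.factorial : ℝ) * (S.card : ℝ) ^ k *
      ((M.card : ℝ) * ((P ^ k + 1 : ℕ) : ℝ) + 4 * Q ^ 2 * (M.card : ℝ) ^ 2) := by
  classical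
  set s : ℤ → ℝ := fun m => if 0 ≤ (∑ p ∈ S, (oj m p : ℝ)) ^ k then 1 else -1 with hsdef
  have hs1 : ∀ m, |s m| ≤ 1 := by
    intro m; simp only [hsdef]; split_ifs <;> simp
  have hs2 : ∀ m, s m * (∑ p ∈ S, (oj m p : ℝ)) ^ k = |∑ p ∈ S, (oj m p : ℝ)| ^ k := by
    intro m
    rw [← abs_pow]
    simp only [hsdef]
    split_ifs with h1
    · rw [one_mul, abs_of_nonneg h1]
    · rw [abs_of_neg (not_le.1 h1)]; ring
  have h1 : V ^ k * M.card ≤ ∑ l ∈ range (P ^ k + 1), (fac S k l : ℝ) *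
      ∑ m ∈ M, s m * (oj m l : ℝ) := by
    calc V ^ k * M.card = ∑ m ∈ M, V ^ k := by rw [Finset.sum_const, nsmul_eq_mul]; ring
      _ ≤ ∑ m ∈ M, s m * (∑ p ∈ S, (oj m p : ℝ)) ^ k := by
          refine Finset.sum_le_sum fun m hm => ?_
          rw [hs2]
          exact pow_le_pow_left₀ hV (h m hm) k
      _ = _ := by
          simp_rw [pow_sum_eq S P k (fun p hp => (hS p hp).2), Finset.mul_sum]
          rw [Finset.sum_comm]
          refine Finset.sum_congr rfl fun l _ => Finset.sum_congr rfl fun m _ => ?_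
          ring
  have h2 : (V ^ k * M.card) ^ 2 ≤ (∑ l ∈ range (P ^ k + 1), (fac S k l : ℝ) *
      ∑ m ∈ M, s m * (oj m l : ℝ)) ^ 2 :=
    pow_le_pow_left₀ (by positivity) h1 2
  refine h2.trans ((Finset.sum_mul_sq_le_sq_mul_sq _ _ _).trans ?_)
  refine mul_le_mul (sum_fac_sq S (fun p hp => (hS p hp).1) P k (fun p hp => (hS p hp).2))
    (dual M Q hM hsq s hs1 _) ?_ (by positivity)
  exact Finset.sum_nonneg fun l _ => sq_nonneg _

end Pool.Agent.Lib.MP_e426f4_ag.TWL
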