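import Pool.Agent.Lib.MP_e426f4_ag.TWL.LargeValues

/-!
# TWL: exceptional primes of a sequence

`T` finite set of indices, `φ n ≠ 0`, `|φ n| ≤ Q`, at most `K` of the `n ∈ T` have `r φ(n)` a square
(for each `r ≠ 0`), `|ε n| ≤ 1`.  If `S` is a set of primes `≤ P` with
`|∑_{n ∈ T} ε_n (φ(n)/p)| ≥ lam |T|` for all `p ∈ S`, then for all `k`
`|S|^k (lam²/2)^(2k) ≤ k! ((P^k + 1) · 2K/(lam² |T|) + 4 Q⁴)`.
-/

namespace Pool.Agent.Lib.MP_e426f4_ag.TWL

open Finset

theorem exists_reps (A : Finset ℤ) :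
    ∃ M ⊆ A, (∀ m ∈ M, ∀ m' ∈ M, m ≠ m' → ¬ IsSquare (m * m')) ∧
      ∀ x ∈ A, ∃ m ∈ M, IsSquare (m * x) := by
  classical
  obtain ⟨M, hM, hmax⟩ := Finset.exists_max_image
    (A.powerset.filter (fun M => ∀ m ∈ M, ∀ m' ∈ M, m ≠ m' → ¬ IsSquare (m * m'))) Finset.card
    ⟨∅, by simp⟩
  rw [mem_filter, mem_powerset] at hM
  refine ⟨M, hM.1, hM.2, fun x hx => ?_⟩
  by_contra hcon
  push Not at hcon
  have hxM : x ∉ M := fun h => hcon x h (IsSquare.mul_self x)
  have h1 := hmax (insert x M) (by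
    rw [mem_filter, mem_powerset]
    refine ⟨Finset.insert_subset hx hM.1, ?_⟩
    intro m hm m' hm' hne
    rw [mem_insert] at hm hm'
    rcases hm with rfl | hm <;> rcases hm' with rfl | hm'
    · exact absurd rfl hne
    · rw [mul_comm]; exact hcon m' hm'
    · exact hcon m hm
    · exact hM.2 m hm m' hm' hne)
  rw [card_insert_of_notMem hxM] at h1
  omega

theorem exceptional (T : Finset ℕ) (φ : ℕ → ℤ) (Q : ℝ) (hφ : ∀ n ∈ T, φ n ≠ 0 ∧ |(φ n : ℝ)| ≤ Q)
    (K : ℕ) (hK : ∀ r : ℤ, r ≠ 0 → (T.filter (fun n => IsSquare (r * φ n))).card ≤ K)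
    (ε : ℕ → ℝ) (hε : ∀ n, |ε n| ≤ 1) (lam : ℝ) (hlam : 0 < lam) (hT : 0 < T.card)
    (S : Finset ℕ) (P : ℕ) (hS : ∀ p ∈ S, p.Prime ∧ p ≤ P)
    (h : ∀ p ∈ S, lam * T.card ≤ |∑ n ∈ T, ε n * (oj (φ n) p : ℝ)|) (k : ℕ) :
    (S.card : ℝ) ^ k * (lam ^ 2 / 2) ^ (2 * k) ≤ (k.factorial : ℝ) *
      (((P ^ k + 1 : ℕ) : ℝ) * (2 * K / (lam ^ 2 * T.card)) + 4 * Q ^ 4) := by
  classical
  have hN : (0 : ℝ) < T.card := by exact_mod_cast hT
  obtain ⟨n₀, hn₀⟩ := Finset.card_pos.1 hT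
  have hQ : 0 ≤ Q := (abs_nonneg _).trans (hφ n₀ hn₀).2
  have hK1 : 1 ≤ K := by
    refine le_trans ?_ (hK (φ n₀) (hφ n₀ hn₀).1)
    rw [Nat.one_le_iff_ne_zero, ← Nat.pos_iff_ne_zero, Finset.card_pos]
    exact ⟨n₀, by rw [mem_filter]; exact ⟨hn₀, IsSquare.mul_self _⟩⟩
  have hK0 : (0 : ℝ) < K := by exact_mod_cast hK1
  rcases Nat.eq_zero_or_pos S.card with hS0 | hSpos
  · -- trivial case
    rcases Nat.eq_zero_or_pos k with hk | hk
    · subst hk
      rw [hS0]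
      simp only [pow_zero, mul_zero, mul_one, Nat.factorial_zero, Nat.cast_one, one_mul]
      have hlamle : lam ≤ 1 ∨ 1 < lam := le_or_gt _ _
      -- `S` empty, `k = 0`: need `1 ≤ 2 * (2K/(lam² N)) + 4 Q⁴`, true as `Q ≥ 1`
      have hQ1 : 1 ≤ Q := by
        refine le_trans ?_ (hφ n₀ hn₀).2
        have : (1 : ℤ) ≤ |φ n₀| := Int.one_le_abs (hφ n₀ hn₀).1
        exact_mod_cast this
      have h4 : (1 : ℝ) ≤ Q ^ 4 := one_le_pow₀ hQ1
      have h5 : (0 : ℝ) ≤ 2 * K / (lam ^ 2 * T.card) := by positivity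
      have h6 : (0 : ℝ) ≤ ((1 + 1 : ℕ) : ℝ) * (2 * K / (lam ^ 2 * T.card)) := by positivity
      linarith
    · rw [hS0, Nat.cast_zero, zero_pow hk.ne', zero_mul]
      positivity
  have hSpos' : (0 : ℝ) < S.card := by exact_mod_cast hSpos
  set N : ℝ := (T.card : ℝ) with hNdef
  set sg : ℤ → ℝ := fun m => ∑ p ∈ S, (oj m p : ℝ) with hsg
  have hsgle : ∀ m, |sg m| ≤ S.card := by
    intro m
    refine (Finset.abs_sum_le_sum_abs _ _).trans ?_
    refine (Finset.sum_le_sum (g := fun _ => (1 : ℝ)) fun l _ => ?_).trans (by simp)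
    exact_mod_cast oj_abs_le m l
  -- second moment
  have h1 : (S.card : ℝ) * (lam * N) ^ 2 ≤ ∑ n ∈ T, ∑ n' ∈ T, |sg (φ n * φ n')| := by
    calc (S.card : ℝ) * (lam * N) ^ 2 = ∑ p ∈ S, (lam * N) ^ 2 := by
          rw [Finset.sum_const, nsmul_eq_mul]
      _ ≤ ∑ p ∈ S, (∑ n ∈ T, ε n * (oj (φ n) p : ℝ)) ^ 2 := by
          refine Finset.sum_le_sum fun p hp => ?_
          rw [← sq_abs (∑ n ∈ T, ε n * (oj (φ n) p : ℝ))]
          exact pow_le_pow_left₀ (by positivity) (h p hp) 2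
      _ = ∑ n ∈ T, ∑ n' ∈ T, ε n * ε n' * sg (φ n * φ n') := by
          have h2 : ∀ p, (∑ n ∈ T, ε n * (oj (φ n) p : ℝ)) ^ 2
              = ∑ n ∈ T, ∑ n' ∈ T, ε n * ε n' * (oj (φ n * φ n') p : ℝ) := by
            intro p
            rw [pow_two, Finset.sum_mul_sum]
            refine Finset.sum_congr rfl fun n _ => Finset.sum_congr rfl fun n' _ => ?_
            rw [oj_mul_left]; push_cast; ring
          simp_rw [h2]
          rw [Finset.sum_comm]
          refine Finset.sum_congr rfl fun n _ => ?_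
          rw [Finset.sum_comm]
          refine Finset.sum_congr rfl fun n' _ => ?_
          rw [hsg, Finset.mul_sum]
      _ ≤ ∑ n ∈ T, ∑ n' ∈ T, |sg (φ n * φ n')| := by
          refine Finset.sum_le_sum fun n _ => Finset.sum_le_sum fun n' _ => ?_
          refine (le_abs_self _).trans ?_
          rw [abs_mul, abs_mul]
          have : |ε n| * |ε n'| ≤ 1 := mul_le_one₀ (hε n) (abs_nonneg _) (hε n')
          calc |ε n| * |ε n'| * |sg (φ n * φ n')| ≤ 1 * |sg (φ n * φ n')| :=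
                mul_le_mul_of_nonneg_right this (abs_nonneg _)
            _ = _ := one_mul _
  -- the pairs with a large sum
  set V : ℝ := lam ^ 2 / 2 * S.card with hV
  set B : Finset (ℕ × ℕ) := (T ×ˢ T).filter (fun z => V ≤ |sg (φ z.1 * φ z.2)|) with hB
  have h2 : (lam ^ 2 / 2) * N ^ 2 ≤ B.card := by
    have h3 : ∑ n ∈ T, ∑ n' ∈ T, |sg (φ n * φ n')| ≤ (S.card : ℝ) * B.card + V * N ^ 2 := by
      rw [← Finset.sum_product' T T (fun n n' => |sg (φ n * φ n')|)]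
      have h4 : ∀ z ∈ T ×ˢ T, |sg (φ z.1 * φ z.2)| ≤
          (if V ≤ |sg (φ z.1 * φ z.2)| then (S.card : ℝ) else 0) + V := by
        intro z _
        have hV0 : 0 ≤ V := by positivity
        split_ifs with h5
        · linarith [hsgle (φ z.1 * φ z.2)]
        · rw [zero_add]; exact (not_le.1 h5).le
      refine (Finset.sum_le_sum h4).trans ?_
      rw [Finset.sum_add_distrib, ← Finset.sum_filter, Finset.sum_const, Finset.sum_const,
        nsmul_eq_mul, nsmul_eq_mul, Finset.card_product]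
      push_cast
      rw [← hNdef]
      apply le_of_eq
      ring
    have h5 := h1.trans h3
    have h6 : (S.card : ℝ) * ((lam ^ 2 / 2) * N ^ 2) ≤ (S.card : ℝ) * B.card := by
      rw [hV] at h5
      nlinarith [h5]
    exact le_of_mul_le_mul_left h6 hSpos'
  -- representatives
  obtain ⟨M, hMA, hMsq, hMrep⟩ := exists_reps (B.image (fun z => φ z.1 * φ z.2))
  have hM1 : ∀ m ∈ M, (m ≠ 0 ∧ |(m : ℝ)| ≤ Q ^ 2) ∧ V ≤ |sg m| := by
    intro m hm
    obtain ⟨z, hz, rfl⟩ := mem_image.1 (hMA hm)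
    rw [hB, mem_filter, mem_product] at hz
    refine ⟨⟨mul_ne_zero (hφ _ hz.1.1).1 (hφ _ hz.1.2).1, ?_⟩, hz.2⟩
    push_cast
    rw [abs_mul, pow_two]
    exact mul_le_mul (hφ _ hz.1.1).2 (hφ _ hz.1.2).2 (abs_nonneg _) hQ
  have h3 : (B.card : ℝ) ≤ M.card * (N * K) := by
    have h4 : B ⊆ M.biUnion (fun m => (T ×ˢ T).filter (fun z => IsSquare (m * (φ z.1 * φ z.2)))) := by
      intro z hz
      obtain ⟨m, hm, hsq⟩ := hMrep _ (mem_image_of_mem _ hz)
      rw [mem_biUnion]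
      refine ⟨m, hm, ?_⟩
      rw [mem_filter]
      exact ⟨(mem_filter.1 hz).1, hsq⟩
    have h5 : ∀ m ∈ M, ((T ×ˢ T).filter (fun z => IsSquare (m * (φ z.1 * φ z.2)))).card ≤ T.card * K := by
      intro m hm
      have h6 : ((T ×ˢ T).filter (fun z => IsSquare (m * (φ z.1 * φ z.2)))) ⊆
          T.biUnion (fun n => (T.filter (fun n' => IsSquare (m * φ n * φ n'))).image (fun n' => (n, n'))) := by
        intro z hz
        rw [mem_filter, mem_product] at hz
        rw [mem_biUnion]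
        refine ⟨z.1, hz.1.1, ?_⟩
        rw [mem_image]
        refine ⟨z.2, ?_, rfl⟩
        rw [mem_filter]
        exact ⟨hz.1.2, by rw [mul_assoc]; exact hz.2⟩
      refine (card_le_card h6).trans (card_biUnion_le.trans ?_)
      refine (sum_le_sum fun n hn => card_image_le.trans
        (hK (m * φ n) (mul_ne_zero (hM1 m hm).1.1 (hφ n hn).1))).trans ?_
      rw [sum_const, smul_eq_mul]
    have h6 : B.card ≤ M.card * (T.card * K) := by
      refine (card_le_card h4).trans (card_biUnion_le.trans ?_)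
      refine (sum_le_sum h5).trans ?_
      rw [sum_const, smul_eq_mul]
    calc (B.card : ℝ) ≤ ((M.card * (T.card * K) : ℕ) : ℝ) := by exact_mod_cast h6
      _ = M.card * (N * K) := by push_cast; ring
  have hlam2 : 0 < lam ^ 2 := by positivity
  have hMcard : lam ^ 2 * N / (2 * K) ≤ M.card := by
    rw [div_le_iff₀ (by positivity)]
    have h4 := h2.trans h3
    have h5 : N * (lam ^ 2 * N) ≤ N * (M.card * (2 * K)) := by nlinarith [h4]
    exact le_of_mul_le_mul_left h5 hN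
  have hMpos : (0 : ℝ) < M.card := lt_of_lt_of_le (by positivity) hMcard
  have h4 := large_values S P hS k M (Q ^ 2) (fun m hm => (hM1 m hm).1) hMsq V (by positivity)
    (fun m hm => (hM1 m hm).2)
  -- divide
  have h5 : (S.card : ℝ) ^ k * (lam ^ 2 / 2) ^ (2 * k) ≤ (k.factorial : ℝ) *
      (((P ^ k + 1 : ℕ) : ℝ) / M.card + 4 * Q ^ 4) := by
    have h6 : (V ^ k * M.card) ^ 2 = ((S.card : ℝ) ^ k * (M.card : ℝ) ^ 2) *
        ((S.card : ℝ) ^ k * (lam ^ 2 / 2) ^ (2 * k)) := by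
      rw [hV]; ring
    have h7 : (k.factorial : ℝ) * (S.card : ℝ) ^ k *
        ((M.card : ℝ) * ((P ^ k + 1 : ℕ) : ℝ) + 4 * (Q ^ 2) ^ 2 * (M.card : ℝ) ^ 2)
        = ((S.card : ℝ) ^ k * (M.card : ℝ) ^ 2) * ((k.factorial : ℝ) *
      (((P ^ k + 1 : ℕ) : ℝ) / M.card + 4 * Q ^ 4)) := by
      field_simp
    rw [h6, h7] at h4
    exact le_of_mul_le_mul_left h4 (by positivity)
  refine h5.trans ?_
  refine mul_le_mul_of_nonneg_left ?_ (by positivity)
  have h8 : ((P ^ k + 1 : ℕ) : ℝ) / M.card ≤ ((P ^ k + 1 : ℕ) : ℝ) * (2 * K / (lam ^ 2 * N)) := by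
    rw [div_eq_mul_inv]
    refine mul_le_mul_of_nonneg_left ?_ (by positivity)
    rw [inv_le_comm₀ hMpos (by positivity)]
    refine le_trans (le_of_eq ?_) hMcard
    field_simp
  linarith

end Pool.Agent.Lib.MP_e426f4_ag.TWL
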