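import Mathlib

/-!
# TWL: a number has at most `k!` ordered factorisations into `k` primes
-/

namespace Pool.Agent.Lib.MP_e426f4_ag.TWL

open Finset

theorem fiber_le (S : Finset ℕ) (hS : ∀ p ∈ S, p.Prime) (k l : ℕ) :
    ((Fintype.piFinset (fun _ : Fin k => S)).filter (fun g => ∏ i, g i = l)).card ≤ k.factorial := by
  classical
  induction k generalizing l with
  | zero =>
    rw [Nat.factorial_zero]
    exact Finset.card_le_one.2 fun a _ b _ => Subsingleton.elim _ _
  | succ k ih =>
    rcases Finset.eq_empty_or_nonempty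
      ((Fintype.piFinset (fun _ : Fin (k + 1) => S)).filter (fun g => ∏ i, g i = l)) with he | ⟨g₀, hg₀⟩
    · rw [he]; simp
    · rw [mem_filter, Fintype.mem_piFinset] at hg₀
      have hl0 : l ≠ 0 := by
        rw [← hg₀.2]
        exact Finset.prod_ne_zero_iff.2 fun i _ => (hS _ (hg₀.1 i)).ne_zero
      have hpf : l.primeFactors ⊆ univ.image g₀ := by
        intro q hq
        rw [Nat.mem_primeFactors] at hq
        obtain ⟨hqp, hql, -⟩ := hq
        rw [← hg₀.2] at hql
        obtain ⟨i, -, hi⟩ := (hqp.prime.dvd_finsetProd_iff g₀).1 hql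
        rw [mem_image]
        exact ⟨i, mem_univ _, ((Nat.prime_dvd_prime_iff_eq hqp (hS _ (hg₀.1 i))).1 hi).symm⟩
      have hcard : l.primeFactors.card ≤ k + 1 := by
        refine (card_le_card hpf).trans (card_image_le.trans ?_)
        simp
      have hsub : ((Fintype.piFinset (fun _ : Fin (k + 1) => S)).filter (fun g => ∏ i, g i = l)) ⊆
          l.primeFactors.biUnion (fun q =>
            ((Fintype.piFinset (fun _ : Fin k => S)).filter (fun g => ∏ i, g i = l / q)).image
              (fun g => (Fin.cons q g : Fin (k + 1) → ℕ))) := by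
        intro g hg
        rw [mem_filter, Fintype.mem_piFinset] at hg
        rw [mem_biUnion]
        have hdvd : g 0 ∣ l := by
          rw [← hg.2]; exact dvd_prod_of_mem g (mem_univ _)
        refine ⟨g 0, Nat.mem_primeFactors.2 ⟨hS _ (hg.1 0), hdvd, hl0⟩, ?_⟩
        rw [mem_image]
        refine ⟨Fin.tail g, ?_, Fin.cons_self_tail g⟩
        rw [mem_filter, Fintype.mem_piFinset]
        refine ⟨fun i => hg.1 _, ?_⟩
        have h1 : ∏ i, g i = g 0 * ∏ i, Fin.tail g i := by
          rw [Fin.prod_univ_succ]; rfl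
        rw [← hg.2, h1, Nat.mul_div_cancel_left _ (hS _ (hg.1 0)).pos]
      refine (card_le_card hsub).trans (card_biUnion_le.trans ?_)
      refine (sum_le_sum fun q _ => card_image_le.trans (ih (l / q))).trans ?_
      rw [sum_const, smul_eq_mul, Nat.factorial_succ]
      exact Nat.mul_le_mul_right _ hcard

end Pool.Agent.Lib.MP_e426f4_ag.TWL
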