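import Pool.Agent.Lib.MP_e426f4_ag.TWL.Exceptional

/-!
# TWL: the halving lemma (HL)

`N = ⌊L^C⌋`, `c_n ≠ 0`, `|c_n| ≤ N^D0`, at most `K` of the `c_n` lie in one class modulo squares,
`K³ ≤ N²`.  For every set `S ⊆ [1,N]` with `|S| ≥ N L^(-e1)` and every `P ≥ L^cz` the number of primes
`p ≤ 2P` with `|∑_{n ∈ S} ε_n (c_n/p)| ≥ |S|/L` is at most `P L^(-e2)`.
-/

namespace Pool.Agent.Lib.MP_e426f4_ag.TWL

open Finset

theorem halving_core (D0 e1 e2 k : ℕ) (hk : 1 ≤ k) (L : ℝ) (hL : 1 ≤ L) (N : ℕ) (hN : 1 ≤ N)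
    (hNL : ((k.factorial : ℝ) * (2 * L ^ 2) ^ (2 * k) * 2 ^ (k + 3) * L ^ (2 + e1) * L ^ (e2 * k)) ^ 3 ≤ N)
    (P : ℕ) (hP : (N : ℝ) ^ (4 * D0 + 1) ≤ (P : ℝ) ^ k)
    (c : ℕ → ℤ) (T : Finset ℕ) (hc : ∀ n ∈ T, c n ≠ 0 ∧ |(c n : ℝ)| ≤ (N : ℝ) ^ D0)
    (K : ℕ) (hKN : K ^ 3 ≤ N ^ 2) (hK : ∀ r : ℤ, r ≠ 0 → (T.filter (fun n => IsSquare (r * c n))).card ≤ K)
    (ε : ℕ → ℝ) (hε : ∀ n, |ε n| ≤ 1)
    (hT : (N : ℝ) ≤ T.card * L ^ e1)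
    (S : Finset ℕ) (hS : ∀ p ∈ S, p.Prime ∧ p ≤ 2 * P)
    (h : ∀ p ∈ S, (T.card : ℝ) ≤ L * |∑ n ∈ T, ε n * (oj (c n) p : ℝ)|) :
    (S.card : ℝ) * L ^ e2 ≤ P := by
  classical
  have hL0 : 0 < L := by linarith
  have hNpos : (0 : ℝ) < N := by exact_mod_cast hN
  have hTpos : (0 : ℝ) < T.card := by
    by_contra hcon
    have : (T.card : ℝ) = 0 := le_antisymm (not_lt.1 hcon) (Nat.cast_nonneg _)
    rw [this, zero_mul] at hT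
    linarith
  have hTpos' : 0 < T.card := by exact_mod_cast hTpos
  have h1 := exceptional T c ((N : ℝ) ^ D0) hc K hK ε hε (1 / L) (by positivity) hTpos' S (2 * P) hS
    (fun p hp => by
      have := h p hp
      rw [div_mul_eq_mul_div, one_mul, div_le_iff₀ hL0]
      linarith) k
  -- K ≥ 1
  obtain ⟨n₀, hn₀⟩ := Finset.card_pos.1 hTpos'
  have hK1 : 1 ≤ K := by
    refine le_trans ?_ (hK (c n₀) (hc n₀ hn₀).1)
    rw [Nat.one_le_iff_ne_zero, ← Nat.pos_iff_ne_zero, Finset.card_pos]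
    exact ⟨n₀, by rw [mem_filter]; exact ⟨hn₀, IsSquare.mul_self _⟩⟩
  have hK0 : (1 : ℝ) ≤ K := by exact_mod_cast hK1
  have hPk : (1 : ℝ) ≤ (P : ℝ) ^ k := by
    refine le_trans ?_ hP
    exact one_le_pow₀ (by exact_mod_cast hN)
  -- the bracket
  have h2 : (((2 * P) ^ k + 1 : ℕ) : ℝ) * (2 * K / ((1 / L) ^ 2 * T.card)) + 4 * ((N : ℝ) ^ D0) ^ 4
      ≤ 2 ^ (k + 3) * L ^ (2 + e1) * (K / N) * (P : ℝ) ^ k := by
    have h3 : (((2 * P) ^ k + 1 : ℕ) : ℝ) ≤ 2 ^ (k + 1) * (P : ℝ) ^ k := by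
      push_cast
      rw [mul_pow, pow_succ]
      have : (1 : ℝ) ≤ 2 ^ k * (P : ℝ) ^ k := by
        have : (1 : ℝ) ≤ 2 ^ k := one_le_pow₀ (by norm_num)
        nlinarith
      linarith
    have h4 : 2 * (K : ℝ) / ((1 / L) ^ 2 * T.card) ≤ 2 * K * L ^ (2 + e1) / N := by
      rw [div_le_div_iff₀ (by positivity) hNpos]
      have h5 : 2 * (K : ℝ) * L ^ (2 + e1) * ((1 / L) ^ 2 * T.card) = 2 * K * (T.card * L ^ e1) := by
        rw [pow_add]; field_simp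
      rw [h5]
      exact mul_le_mul_of_nonneg_left hT (by positivity)
    have h5 : ((N : ℝ) ^ D0) ^ 4 ≤ (P : ℝ) ^ k / N := by
      rw [le_div_iff₀ hNpos, ← pow_mul, mul_comm D0 4, ← pow_succ]
      exact hP
    have h6 : (P : ℝ) ^ k / N ≤ L ^ (2 + e1) * (K / N) * (P : ℝ) ^ k := by
      have h7 : (1 : ℝ) ≤ L ^ (2 + e1) := one_le_pow₀ hL
      have h8 : (1 : ℝ) ≤ L ^ (2 + e1) * K := by nlinarith
      calc (P : ℝ) ^ k / N = 1 * ((P : ℝ) ^ k / N) := by ring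
        _ ≤ (L ^ (2 + e1) * K) * ((P : ℝ) ^ k / N) := by
            exact mul_le_mul_of_nonneg_right h8 (by positivity)
        _ = _ := by ring
    have h7 : (((2 * P) ^ k + 1 : ℕ) : ℝ) * (2 * K / ((1 / L) ^ 2 * T.card))
        ≤ 2 ^ (k + 2) * (L ^ (2 + e1) * (K / N) * (P : ℝ) ^ k) := by
      calc (((2 * P) ^ k + 1 : ℕ) : ℝ) * (2 * K / ((1 / L) ^ 2 * T.card))
          ≤ (2 ^ (k + 1) * (P : ℝ) ^ k) * (2 * K * L ^ (2 + e1) / N) :=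
            mul_le_mul h3 h4 (by positivity) (by positivity)
        _ = _ := by rw [pow_succ 2 (k + 1)]; ring
    have h8 : (4 : ℝ) ≤ 2 ^ (k + 2) := by
      calc (4 : ℝ) = 2 ^ 2 := by norm_num
        _ ≤ 2 ^ (k + 2) := pow_le_pow_right₀ (by norm_num) (by omega)
    have h9 : 0 ≤ L ^ (2 + e1) * (K / N) * (P : ℝ) ^ k := by positivity
    have h10 : (2 : ℝ) ^ (k + 3) = 2 ^ (k + 2) * 2 := pow_succ 2 (k + 2)
    rw [h10]
    nlinarith [mul_le_mul_of_nonneg_right h8 h9]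
  set A : ℝ := (k.factorial : ℝ) * (2 * L ^ 2) ^ (2 * k) * 2 ^ (k + 3) * L ^ (2 + e1) with hA
  have hA0 : 0 < A := by rw [hA]; positivity
  have h3 : (S.card : ℝ) ^ k ≤ A * (K / N) * (P : ℝ) ^ k := by
    have h4 : (S.card : ℝ) ^ k = ((S.card : ℝ) ^ k * ((1 / L) ^ 2 / 2) ^ (2 * k)) * (2 * L ^ 2) ^ (2 * k) := by
      rw [mul_assoc, ← mul_pow]
      have : (1 / L) ^ 2 / 2 * (2 * L ^ 2) = 1 := by field_simp
      rw [this, one_pow, mul_one]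
    rw [h4]
    calc ((S.card : ℝ) ^ k * ((1 / L) ^ 2 / 2) ^ (2 * k)) * (2 * L ^ 2) ^ (2 * k)
        ≤ ((k.factorial : ℝ) * (2 ^ (k + 3) * L ^ (2 + e1) * (K / N) * (P : ℝ) ^ k)) *
          (2 * L ^ 2) ^ (2 * k) := by
          refine mul_le_mul_of_nonneg_right ?_ (by positivity)
          exact h1.trans (mul_le_mul_of_nonneg_left h2 (by positivity))
      _ = _ := by rw [hA]; ring
  -- cube
  have h4 : A * L ^ (e2 * k) * (K / N) ≤ 1 := by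
    have h5 : (A * L ^ (e2 * k) * (K / N)) ^ 3 ≤ 1 ^ 3 := by
      rw [mul_pow, div_pow, one_pow]
      calc (A * L ^ (e2 * k)) ^ 3 * ((K : ℝ) ^ 3 / (N : ℝ) ^ 3)
          ≤ N * ((N : ℝ) ^ 2 / (N : ℝ) ^ 3) := by
            refine mul_le_mul hNL ?_ (by positivity) (by positivity)
            refine div_le_div_of_nonneg_right ?_ (by positivity)
            exact_mod_cast hKN
        _ = 1 := by field_simp
    exact le_of_pow_le_pow_left₀ (by norm_num) zero_le_one h5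
  have h5 : ((S.card : ℝ) * L ^ e2) ^ k ≤ (P : ℝ) ^ k := by
    rw [mul_pow, ← pow_mul]
    calc (S.card : ℝ) ^ k * L ^ (e2 * k) ≤ (A * (K / N) * (P : ℝ) ^ k) * L ^ (e2 * k) :=
          mul_le_mul_of_nonneg_right h3 (by positivity)
      _ = (A * L ^ (e2 * k) * (K / N)) * (P : ℝ) ^ k := by ring
      _ ≤ 1 * (P : ℝ) ^ k := mul_le_mul_of_nonneg_right h4 (by positivity)
      _ = _ := one_mul _
  exact le_of_pow_le_pow_left₀ (by omega) (Nat.cast_nonneg _) h5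

/-- **(HL)** -/
theorem halving (D0 e1 e2 cz C : ℕ) (hcz : 2 * (12 + 3 * e2) * (4 * D0 + 1) ≤ cz)
    (hC : 2 * (19 + 3 * e1 + 3 * e2) ≤ C) :
    ∃ L0 : ℝ, 2 ≤ L0 ∧ ∀ L : ℝ, L0 ≤ L → ∀ (c : ℕ → ℤ) (T : Finset ℕ),
      (∀ n ∈ T, c n ≠ 0 ∧ |(c n : ℝ)| ≤ ((⌊L ^ C⌋₊ : ℕ) : ℝ) ^ D0) →
      ∀ K : ℕ, K ^ 3 ≤ ⌊L ^ C⌋₊ ^ 2 →
      (∀ r : ℤ, r ≠ 0 → (T.filter (fun n => IsSquare (r * c n))).card ≤ K) →
      ((⌊L ^ C⌋₊ : ℕ) : ℝ) ≤ T.card * L ^ e1 →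
      ∀ (ε : ℕ → ℝ), (∀ n, |ε n| ≤ 1) → ∀ (P : ℕ), L ^ cz ≤ P →
      ∀ (S : Finset ℕ), (∀ p ∈ S, p.Prime ∧ p ≤ 2 * P) →
      (∀ p ∈ S, (T.card : ℝ) ≤ L * |∑ n ∈ T, ε n * (oj (c n) p : ℝ)|) →
      (S.card : ℝ) * L ^ e2 ≤ P := by
  -- the exponent
  have hczpos : 0 < cz := lt_of_lt_of_le (by positivity) hcz
  set k : ℕ := (4 * D0 + 1) * C / cz + 1 with hk
  have hkC : 12 * k + 6 + 3 * e1 + 3 * e2 * k + 1 ≤ C := by
    have h1 : 2 * (12 + 3 * e2) * ((4 * D0 + 1) * C / cz) ≤ C := by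
      have h2 : (4 * D0 + 1) * C / cz ≤ (4 * D0 + 1) * C / (2 * (12 + 3 * e2) * (4 * D0 + 1)) :=
        Nat.div_le_div_left hcz (by positivity)
      have h3 : (4 * D0 + 1) * C / (2 * (12 + 3 * e2) * (4 * D0 + 1)) = C / (2 * (12 + 3 * e2)) := by
        rw [mul_comm (2 * (12 + 3 * e2)) (4 * D0 + 1)]
        exact Nat.mul_div_mul_left _ _ (by positivity)
      rw [h3] at h2
      calc 2 * (12 + 3 * e2) * ((4 * D0 + 1) * C / cz)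
          ≤ 2 * (12 + 3 * e2) * (C / (2 * (12 + 3 * e2))) := Nat.mul_le_mul_left _ h2
        _ ≤ C := Nat.mul_div_le _ _
    have h4 : 12 * k + 3 * e2 * k = (12 + 3 * e2) * ((4 * D0 + 1) * C / cz) + (12 + 3 * e2) := by
      rw [hk]; ring
    have h5 : 2 * ((12 + 3 * e2) * ((4 * D0 + 1) * C / cz)) ≤ C := by
      calc 2 * ((12 + 3 * e2) * ((4 * D0 + 1) * C / cz))
          = 2 * (12 + 3 * e2) * ((4 * D0 + 1) * C / cz) := by ring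
        _ ≤ C := h1
    omega
  have hkP : (4 * D0 + 1) * C ≤ cz * k := by
    rw [hk]
    have := Nat.lt_mul_div_succ ((4 * D0 + 1) * C) hczpos
    exact this.le
  -- the threshold
  set c0 : ℝ := ((k.factorial : ℝ) * 2 ^ (2 * k) * 2 ^ (k + 3)) ^ 3 with hc0
  have hc0pos : 0 < c0 := by positivity
  refine ⟨max 2 (2 * c0), le_max_left _ _, ?_⟩
  intro L hL c T hc K hKN hK hT ε hε P hP S hS h
  have hL2 : 2 ≤ L := (le_max_left _ _).trans hL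
  have hLc : 2 * c0 ≤ L := (le_max_right _ _).trans hL
  have hL1 : 1 ≤ L := by linarith
  have hLC1 : (1 : ℝ) ≤ L ^ C := one_le_pow₀ hL1
  have hN1 : 1 ≤ ⌊L ^ C⌋₊ := Nat.le_floor (by simpa using hLC1)
  have hNle : ((⌊L ^ C⌋₊ : ℕ) : ℝ) ≤ L ^ C := Nat.floor_le (by positivity)
  have hNge : L ^ C ≤ 2 * ((⌊L ^ C⌋₊ : ℕ) : ℝ) := by
    have h1 := Nat.lt_floor_add_one (L ^ C)
    have h2 : (1 : ℝ) ≤ ((⌊L ^ C⌋₊ : ℕ) : ℝ) := by exact_mod_cast hN1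
    linarith
  refine halving_core D0 e1 e2 k (by rw [hk]; exact Nat.succ_pos _) L hL1 _ hN1 ?_ P ?_ c T hc K hKN hK ε hε hT S hS h
  · have h1 : ((k.factorial : ℝ) * (2 * L ^ 2) ^ (2 * k) * 2 ^ (k + 3) * L ^ (2 + e1) * L ^ (e2 * k)) ^ 3
        = c0 * L ^ (12 * k + 6 + 3 * e1 + 3 * e2 * k) := by
      rw [hc0, mul_pow 2 (L ^ 2), ← pow_mul]
      have : L ^ (12 * k + 6 + 3 * e1 + 3 * e2 * k) = (L ^ (2 * (2 * k)) * L ^ (2 + e1) * L ^ (e2 * k)) ^ 3 := by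
        rw [← pow_add, ← pow_add, ← pow_mul]
        congr 1; ring
      rw [this]; ring
    rw [h1]
    have h2 : 2 * (c0 * L ^ (12 * k + 6 + 3 * e1 + 3 * e2 * k)) ≤ L ^ C := by
      calc 2 * (c0 * L ^ (12 * k + 6 + 3 * e1 + 3 * e2 * k))
          = (2 * c0) * L ^ (12 * k + 6 + 3 * e1 + 3 * e2 * k) := by ring
        _ ≤ L * L ^ (12 * k + 6 + 3 * e1 + 3 * e2 * k) :=
            mul_le_mul_of_nonneg_right hLc (by positivity)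
        _ = L ^ (12 * k + 6 + 3 * e1 + 3 * e2 * k + 1) := by rw [pow_succ]; ring
        _ ≤ L ^ C := pow_le_pow_right₀ hL1 hkC
    linarith
  · calc ((⌊L ^ C⌋₊ : ℕ) : ℝ) ^ (4 * D0 + 1) ≤ (L ^ C) ^ (4 * D0 + 1) :=
          pow_le_pow_left₀ (Nat.cast_nonneg _) hNle _
      _ = L ^ ((4 * D0 + 1) * C) := by rw [← pow_mul, mul_comm]
      _ ≤ L ^ (cz * k) := pow_le_pow_right₀ hL1 hkP
      _ = (L ^ cz) ^ k := by rw [pow_mul]
      _ ≤ (P : ℝ) ^ k := pow_le_pow_left₀ (by positivity) hP _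

end Pool.Agent.Lib.MP_e426f4_ag.TWL
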