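import Mathlib

/-!
# TWL: Mertens, lower bound `∑_{p ≤ n} log p / p ≥ log n - C`
-/

namespace Pool.Agent.Lib.MP_e426f4_ag.TWL

open Finset

theorem log_div_le (p : ℕ) (hp : 2 ≤ p) :
    Real.log p / ((p : ℝ) * (p - 1)) ≤ 4 * ((p : ℝ) ^ (3 / 2 : ℝ))⁻¹ := by
  have hp0 : (0 : ℝ) < p := by positivity
  have hp2 : (2 : ℝ) ≤ p := by exact_mod_cast hp
  have h1 : Real.log p ≤ 2 * (p : ℝ) ^ (1 / 2 : ℝ) := by
    have := Real.log_le_rpow_div hp0.le (show (0 : ℝ) < 1 / 2 by norm_num)
    calc Real.log p ≤ (p : ℝ) ^ (1 / 2 : ℝ) / (1 / 2) := this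
      _ = _ := by ring
  have h2 : (p : ℝ) * (p - 1) ≥ (p : ℝ) ^ (2 : ℝ) / 2 := by
    rw [Real.rpow_two]
    nlinarith
  have h3 : (0 : ℝ) < (p : ℝ) ^ (2 : ℝ) / 2 := by positivity
  calc Real.log p / ((p : ℝ) * (p - 1)) ≤ (2 * (p : ℝ) ^ (1 / 2 : ℝ)) / ((p : ℝ) ^ (2 : ℝ) / 2) := by
        apply div_le_div₀ (by positivity) h1 h3 h2
    _ = 4 * ((p : ℝ) ^ (1 / 2 : ℝ) / (p : ℝ) ^ (2 : ℝ)) := by ring
    _ = 4 * ((p : ℝ) ^ (3 / 2 : ℝ))⁻¹ := by
        rw [← Real.rpow_sub hp0, ← Real.rpow_neg hp0.le]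
        norm_num

theorem mertens_low : ∃ C : ℝ, 0 ≤ C ∧ ∀ n : ℕ, 1 ≤ n →
    Real.log n - C ≤ ∑ p ∈ Nat.primesLE n, Real.log p / p := by
  have hsum : Summable (fun p : ℕ => 4 * ((p : ℝ) ^ (3 / 2 : ℝ))⁻¹) :=
    (Real.summable_nat_rpow_inv.2 (by norm_num)).mul_left 4
  set C0 : ℝ := ∑' p : ℕ, 4 * ((p : ℝ) ^ (3 / 2 : ℝ))⁻¹ with hC0
  have hC0' : 0 ≤ C0 := tsum_nonneg fun p => by positivity
  refine ⟨C0 + 1, by linarith, ?_⟩
  intro n hn
  have hn0 : (0 : ℝ) < n := by exact_mod_cast hn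
  -- log n! from above
  have h1 : Real.log (n.factorial) ≤ ∑ p ∈ Nat.primesLE n, (n : ℝ) * (Real.log p / ((p : ℝ) - 1)) := by
    have hf0 : n.factorial ≠ 0 := Nat.factorial_ne_zero n
    have h2 : (n.factorial : ℝ) = ∏ p ∈ n.factorial.primeFactors, (p : ℝ) ^ (n.factorial.factorization p) := by
      have h3 := Nat.prod_factorization_pow_eq_self hf0
      rw [Finsupp.prod, Nat.support_factorization] at h3
      conv_lhs => rw [← h3]
      push_cast
      rfl
    rw [h2, Real.log_prod (fun p hp => by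
      have := (Nat.prime_of_mem_primeFactors hp).pos
      positivity)]
    have h4 : ∑ p ∈ n.factorial.primeFactors, Real.log ((p : ℝ) ^ (n.factorial.factorization p))
        ≤ ∑ p ∈ n.factorial.primeFactors, (n : ℝ) * (Real.log p / ((p : ℝ) - 1)) := by
      refine Finset.sum_le_sum fun p hp => ?_
      have hpp := Nat.prime_of_mem_primeFactors hp
      have : Fact p.Prime := ⟨hpp⟩
      rw [Real.log_pow]
      have h5 := sub_one_mul_padicValNat_factorial (p := p) n
      have h6 : (p - 1) * n.factorial.factorization p ≤ n := by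
        rw [← Nat.factorization_def _ hpp] at h5
        rw [h5]; exact Nat.sub_le _ _
      have hp1 : (0 : ℝ) < (p : ℝ) - 1 := by
        have : (2 : ℝ) ≤ p := by exact_mod_cast hpp.two_le
        linarith
      have h7 : ((p : ℝ) - 1) * (n.factorial.factorization p : ℝ) ≤ n := by
        have : (((p - 1) * n.factorial.factorization p : ℕ) : ℝ) ≤ n := by exact_mod_cast h6
        rw [Nat.cast_mul, Nat.cast_sub hpp.one_le, Nat.cast_one] at this
        exact this
      have hlog : 0 ≤ Real.log p := Real.log_nonneg (by exact_mod_cast hpp.one_le)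
      calc (n.factorial.factorization p : ℝ) * Real.log p
          = (((p : ℝ) - 1) * (n.factorial.factorization p : ℝ)) * (Real.log p / ((p : ℝ) - 1)) := by
            field_simp
        _ ≤ n * (Real.log p / ((p : ℝ) - 1)) := mul_le_mul_of_nonneg_right h7 (by positivity)
    refine h4.trans ?_
    refine Finset.sum_le_sum_of_subset_of_nonneg ?_ ?_
    · intro p hp
      rw [Nat.mem_primesLE]
      have hpp := Nat.prime_of_mem_primeFactors hp
      exact ⟨(hpp.dvd_factorial).1 (Nat.dvd_of_mem_primeFactors hp), hpp⟩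
    · intro p hp _
      have hpp := (Nat.mem_primesLE.1 hp).2
      have : (2 : ℝ) ≤ p := by exact_mod_cast hpp.two_le
      have hlog : 0 ≤ Real.log p := Real.log_nonneg (by linarith)
      exact mul_nonneg hn0.le (div_nonneg hlog (by linarith))
  -- log n! from below
  have h2 : (n : ℝ) * Real.log n - n ≤ Real.log (n.factorial) := by
    have h3 : ((n : ℝ) / Real.exp 1) ^ n ≤ n.factorial := by
      have h := Stirling.le_factorial_stirling n
      have hs : 1 ≤ √(2 * Real.pi * n) := by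
        rw [Real.one_le_sqrt]
        have h1 : (1 : ℝ) ≤ n := by exact_mod_cast hn
        nlinarith [Real.pi_gt_three]
      have h0 : 0 ≤ ((n : ℝ) / Real.exp 1) ^ n := by positivity
      nlinarith [mul_le_mul_of_nonneg_right hs h0]
    have h4 := Real.log_le_log (by positivity) h3
    rw [Real.log_pow, Real.log_div hn0.ne' (Real.exp_ne_zero 1), Real.log_exp] at h4
    linarith
  have h3 : ∑ p ∈ Nat.primesLE n, (n : ℝ) * (Real.log p / ((p : ℝ) - 1))
      = n * (∑ p ∈ Nat.primesLE n, Real.log p / p + ∑ p ∈ Nat.primesLE n, Real.log p / ((p : ℝ) * (p - 1))) := by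
    rw [← Finset.sum_add_distrib, Finset.mul_sum]
    refine Finset.sum_congr rfl fun p hp => ?_
    have hpp := (Nat.mem_primesLE.1 hp).2
    have hp2 : (2 : ℝ) ≤ p := by exact_mod_cast hpp.two_le
    have hp1 : (p : ℝ) - 1 ≠ 0 := by
      intro h; linarith
    have hp0 : (p : ℝ) ≠ 0 := by positivity
    field_simp
    ring
  have h4 : ∑ p ∈ Nat.primesLE n, Real.log p / ((p : ℝ) * (p - 1)) ≤ C0 := by
    refine (Finset.sum_le_sum fun p hp => log_div_le p (Nat.mem_primesLE.1 hp).2.two_le).trans ?_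
    exact hsum.sum_le_tsum _ fun p _ => by positivity
  rw [h3] at h1
  have h5 := h2.trans h1
  have h6 : (n : ℝ) * (Real.log n - 1) ≤ n * (∑ p ∈ Nat.primesLE n, Real.log p / p +
      ∑ p ∈ Nat.primesLE n, Real.log p / ((p : ℝ) * (p - 1))) := by linarith
  have h7 := le_of_mul_le_mul_left h6 hn0
  linarith

end Pool.Agent.Lib.MP_e426f4_ag.TWL
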