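import Pool.Agent.Lib.MP_e426f4_ag.TWL.Gallagher
import Pool.Agent.Lib.MP_e426f4_ag.TWL.MertLow
import Pool.Agent.Lib.MP_67663b_nt.OddB.Mert

/-!
# TWL: sets occupying at most `0.55 q` classes modulo most primes have at most `N^(2/3)` elements
-/

namespace Pool.Agent.Lib.MP_e426f4_ag.TWL

open Finset

/-- `∑_{q ∣ m} log q / q ≤ log y + log 4 + log m / y` -/
theorem sum_log_primeFactors (m y : ℕ) (hm : m ≠ 0) (hy : 1 ≤ y) :
    ∑ q ∈ m.primeFactors, Real.log q / q ≤ Real.log y + Real.log 4 + Real.log m / y := by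
  classical
  have hy0 : (0 : ℝ) < y := by exact_mod_cast hy
  rw [← Finset.sum_filter_add_sum_filter_not m.primeFactors (fun q => q ≤ y)]
  have h1 : ∑ q ∈ m.primeFactors.filter (fun q => q ≤ y), Real.log q / q ≤ Real.log y + Real.log 4 := by
    refine le_trans ?_ (Pool.MP_67663b_nt.Mert.log_sum_le y hy)
    refine Finset.sum_le_sum_of_subset_of_nonneg ?_ ?_
    · intro q hq
      rw [mem_filter] at hq
      rw [Nat.mem_primesLE]
      exact ⟨hq.2, Nat.prime_of_mem_primeFactors hq.1⟩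
    · intro q hq _
      have := (Nat.mem_primesLE.1 hq).2.one_le
      exact div_nonneg (Real.log_nonneg (by exact_mod_cast this)) (Nat.cast_nonneg _)
  have h2 : ∑ q ∈ m.primeFactors.filter (fun q => ¬ q ≤ y), Real.log q / q ≤ Real.log m / y := by
    have h3 : ∑ q ∈ m.primeFactors.filter (fun q => ¬ q ≤ y), Real.log q / q
        ≤ ∑ q ∈ m.primeFactors.filter (fun q => ¬ q ≤ y), Real.log q / y := by
      refine Finset.sum_le_sum fun q hq => ?_
      rw [mem_filter] at hq
      have hlog : 0 ≤ Real.log q :=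
        Real.log_nonneg (by exact_mod_cast (Nat.prime_of_mem_primeFactors hq.1).one_le)
      have : (y : ℝ) ≤ q := by exact_mod_cast (not_le.1 hq.2).le
      exact div_le_div_of_nonneg_left hlog hy0 this
    refine h3.trans ?_
    rw [← Finset.sum_div]
    refine div_le_div_of_nonneg_right ?_ hy0.le
    have h4 := sum_log_dvd (m.primeFactors.filter (fun q => ¬ q ≤ y))
      (fun q hq => Nat.prime_of_mem_primeFactors (mem_filter.1 hq).1) m hm
    refine le_trans (le_of_eq ?_) h4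
    congr 1
    ext q
    simp only [mem_filter]
    exact ⟨fun h => ⟨h, Nat.dvd_of_mem_primeFactors h.1⟩, fun h => h.1⟩
  linarith

/-- **(MULT), sieve part.** -/
theorem card_le_two_thirds : ∃ N0 : ℕ, ∀ N : ℕ, N0 ≤ N → ∀ (A Ex : Finset ℕ), A ⊆ Icc 1 N →
    ∑ q ∈ Ex, Real.log q / q ≤ Real.log N / 20 →
    (∀ q : ℕ, q.Prime → q ∉ Ex → q ^ 3 ≤ N ^ 2 → ((A.image (fun a => a % q)).card : ℝ) ≤ 0.55 * q) →
    A.card ^ 3 ≤ N ^ 2 := by
  obtain ⟨C, hC, hM⟩ := mertens_low
  refine ⟨max 2 ⌈Real.exp (100 * (C + 1) + 1000)⌉₊, ?_⟩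
  intro N hN A Ex hA hEx hcl
  have hN2 : 2 ≤ N := (le_max_left _ _).trans hN
  have hN0 : (0 : ℝ) < N := by positivity
  have hlogN : 100 * (C + 1) + 1000 ≤ Real.log N := by
    have h1 : Real.exp (100 * (C + 1) + 1000) ≤ N :=
      (Nat.le_ceil _).trans (by exact_mod_cast (le_max_right _ _).trans hN)
    calc 100 * (C + 1) + 1000 = Real.log (Real.exp (100 * (C + 1) + 1000)) := (Real.log_exp _).symm
      _ ≤ Real.log N := Real.log_le_log (Real.exp_pos _) h1
  -- `Y = ⌊N^(2/3)⌋`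
  obtain ⟨Y, hY1, hY2⟩ : ∃ Y : ℕ, Y ^ 3 ≤ N ^ 2 ∧ N ^ 2 < (Y + 1) ^ 3 := by
    refine ⟨Nat.findGreatest (fun y => y ^ 3 ≤ N ^ 2) (N ^ 2), ?_, ?_⟩
    · exact Nat.findGreatest_spec (P := fun y => y ^ 3 ≤ N ^ 2) (m := 0) (Nat.zero_le _) (by simp)
    · by_contra hcon
      push Not at hcon
      have h1 : Nat.findGreatest (fun y => y ^ 3 ≤ N ^ 2) (N ^ 2) + 1 ≤ N ^ 2 := by
        refine le_trans ?_ hcon
        exact Nat.le_self_pow (by norm_num) _
      have := Nat.le_findGreatest (P := fun y => y ^ 3 ≤ N ^ 2) h1 hcon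
      omega
  have hYpos : 1 ≤ Y := by
    by_contra h
    have : Y = 0 := by omega
    rw [this] at hY2
    nlinarith
  have hY0 : (0 : ℝ) < Y := by exact_mod_cast hYpos
  have hlogY : 2 / 3 * Real.log N - Real.log 2 ≤ Real.log Y := by
    have h1 : (N : ℝ) ^ 2 ≤ (2 * Y : ℝ) ^ 3 := by
      have h2 : N ^ 2 ≤ (2 * Y) ^ 3 := by
        refine hY2.le.trans (Nat.pow_le_pow_left (by omega) 3)
      exact_mod_cast h2
    have h2 := Real.log_le_log (by positivity) h1
    rw [Real.log_pow, Real.log_pow, Real.log_mul (by norm_num) hY0.ne'] at h2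
    push_cast at h2
    linarith
  have hlog2 : Real.log 2 ≤ 1 := by
    have := Real.log_two_lt_d9; linarith
  have hlog4 : Real.log 4 ≤ 1.4 := by
    rw [show (4 : ℝ) = 2 ^ 2 by norm_num, Real.log_pow]
    have := Real.log_two_lt_d9
    push_cast
    linarith
  -- apply the larger sieve
  have hls := larger_sieve A N hA ((Nat.primesLE Y).filter (fun q => q ∉ Ex))
    (fun q hq => (Nat.mem_primesLE.1 (mem_filter.1 hq).1).2) (fun q => 0.55 * q)
    (fun q hq => by
      rw [mem_filter, Nat.mem_primesLE] at hq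
      refine ⟨by have := hq.1.2.pos; positivity, ?_⟩
      exact hcl q hq.1.2 hq.2 ((Nat.pow_le_pow_left hq.1.1 3).trans hY1))
  have hsum : Real.log Y - C - Real.log N / 20 ≤
      ∑ q ∈ (Nat.primesLE Y).filter (fun q => q ∉ Ex), Real.log q / q := by
    have h1 := hM Y hYpos
    rw [← Finset.sum_filter_add_sum_filter_not (Nat.primesLE Y) (fun q => q ∈ Ex)] at h1
    have h2 : ∑ q ∈ (Nat.primesLE Y).filter (fun q => q ∈ Ex), Real.log q / q ≤ ∑ q ∈ Ex, Real.log q / q := by
      refine Finset.sum_le_sum_of_subset_of_nonneg ?_ ?_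
      · intro q hq; exact (mem_filter.1 hq).2
      · intro q hq _
        rcases Nat.eq_zero_or_pos q with h | h
        · rw [h]; simp
        · exact div_nonneg (Real.log_nonneg (by exact_mod_cast h)) (Nat.cast_nonneg _)
    linarith
  have hsum2 : ∑ q ∈ (Nat.primesLE Y).filter (fun q => q ∉ Ex), Real.log q / (0.55 * q)
      = (∑ q ∈ (Nat.primesLE Y).filter (fun q => q ∉ Ex), Real.log q / q) / 0.55 := by
    rw [Finset.sum_div]
    refine Finset.sum_congr rfl fun q _ => ?_
    rw [mul_comm, ← div_div]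
  have htheta : ∑ q ∈ (Nat.primesLE Y).filter (fun q => q ∉ Ex), Real.log q ≤ Real.log 4 * Y := by
    refine le_trans ?_ (Chebyshev.theta_le_log4_mul_x hY0.le)
    rw [Chebyshev.theta_eq_sum_primesLE_log]
    refine Finset.sum_le_sum_of_subset_of_nonneg (filter_subset _ _) ?_
    intro q hq _
    exact Real.log_nonneg (by exact_mod_cast (Nat.mem_primesLE.1 hq).2.one_le)
  have hcoef : Real.log N / 10 ≤
      ∑ q ∈ (Nat.primesLE Y).filter (fun q => q ∉ Ex), Real.log q / (0.55 * q) - Real.log N := by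
    rw [hsum2]
    have h1 : (Real.log Y - C - Real.log N / 20) / 0.55 ≤
        (∑ q ∈ (Nat.primesLE Y).filter (fun q => q ∉ Ex), Real.log q / q) / 0.55 :=
      div_le_div_of_nonneg_right hsum (by norm_num)
    have h2 : (2 / 3 * Real.log N - Real.log 2 - C - Real.log N / 20) / 0.55 ≤
        (Real.log Y - C - Real.log N / 20) / 0.55 := by
      refine div_le_div_of_nonneg_right ?_ (by norm_num)
      linarith
    have h3 : Real.log N / 10 + Real.log N ≤ (2 / 3 * Real.log N - Real.log 2 - C - Real.log N / 20) / 0.55 := by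
      rw [le_div_iff₀ (by norm_num)]
      nlinarith
    linarith
  have hA0 : (0 : ℝ) ≤ A.card := Nat.cast_nonneg _
  have h1 : (A.card : ℝ) * (Real.log N / 10) ≤ 1.4 * Y := by
    calc (A.card : ℝ) * (Real.log N / 10) ≤ (A.card : ℝ) *
          (∑ q ∈ (Nat.primesLE Y).filter (fun q => q ∉ Ex), Real.log q / (0.55 * q) - Real.log N) :=
          mul_le_mul_of_nonneg_left hcoef hA0
      _ ≤ _ := hls
      _ ≤ Real.log 4 * Y := htheta
      _ ≤ 1.4 * Y := mul_le_mul_of_nonneg_right hlog4 hY0.le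
  have h2 : (A.card : ℝ) ≤ Y := by
    have h3 : (14 : ℝ) ≤ Real.log N / 10 := by linarith
    have h4 : (A.card : ℝ) * 14 ≤ 1.4 * Y := (mul_le_mul_of_nonneg_left h3 hA0).trans h1
    linarith
  have h3 : A.card ≤ Y := by exact_mod_cast h2
  exact (Nat.pow_le_pow_left h3 3).trans hY1

end Pool.Agent.Lib.MP_e426f4_ag.TWL
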