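import Mathlib

/-!
# TWL: one step of the iteration (IT), and the numerical iteration lemma
-/

namespace Pool.Agent.Lib.MP_e426f4_ag.TWL

open Finset

theorem jacobi_prod {κ : Type*} (I : Finset κ) (c : κ → ℤ) (p : ℕ) :
    jacobiSym (∏ i ∈ I, c i) p = ∏ i ∈ I, jacobiSym (c i) p := by
  classical
  induction I using Finset.induction_on with
  | empty => simp [jacobiSym.one_left]
  | insert a s ha ih => rw [Finset.prod_insert ha, Finset.prod_insert ha, jacobiSym.mul_left, ih]

/-- one step: the prime `p` halves the set `A` for each of the `r` characters -/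
theorem step (r : ℕ) (A : Finset ℕ) (c : Fin r → ℕ → ℤ) (p : ℕ) (η Z : ℝ) (hη : 0 ≤ η)
    (h : ∀ I : Finset (Fin r), I.Nonempty →
      |∑ n ∈ A, (jacobiSym (∏ i ∈ I, c i n) p : ℝ)| ≤ η * A.card)
    (hZ : ((A.filter (fun n => ∃ i, jacobiSym (c i n) p = 0)).card : ℝ) ≤ Z) :
    |((A.filter (fun n => ∀ i, jacobiSym (c i n) p = 1)).card : ℝ) - (1 / 2) ^ r * A.card|
      ≤ η * A.card + Z := by
  classical
  -- the product formula
  have hexp : ∑ n ∈ A, ∏ i, (1 + (jacobiSym (c i n) p : ℝ))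
      = ∑ I : Finset (Fin r), ∑ n ∈ A, (jacobiSym (∏ i ∈ I, c i n) p : ℝ) := by
    rw [Finset.sum_comm]
    refine Finset.sum_congr rfl fun n _ => ?_
    have h1 := Finset.prod_add (fun i : Fin r => (jacobiSym (c i n) p : ℝ)) (fun _ => (1 : ℝ)) univ
    have h2 : ∏ i, (1 + (jacobiSym (c i n) p : ℝ)) = ∏ i, ((jacobiSym (c i n) p : ℝ) + 1) :=
      Finset.prod_congr rfl fun i _ => add_comm _ _
    rw [h2, h1, Finset.powerset_univ]
    refine Finset.sum_congr rfl fun I _ => ?_
    rw [Finset.prod_const_one, mul_one, jacobi_prod]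
    push_cast; rfl
  have hmain : |∑ n ∈ A, ∏ i, (1 + (jacobiSym (c i n) p : ℝ)) - A.card| ≤ 2 ^ r * (η * A.card) := by
    rw [hexp, ← Finset.add_sum_erase univ _ (Finset.mem_univ (∅ : Finset (Fin r)))]
    have h1 : ∑ n ∈ A, (jacobiSym (∏ i ∈ (∅ : Finset (Fin r)), c i n) p : ℝ) = A.card := by
      simp [jacobiSym.one_left]
    rw [h1, add_sub_cancel_left]
    refine (Finset.abs_sum_le_sum_abs _ _).trans ?_
    refine (Finset.sum_le_sum fun I hI' => h I ?_).trans ?_
    · rw [Finset.mem_erase] at hI'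
      exact Finset.nonempty_iff_ne_empty.2 hI'.1
    · rw [Finset.sum_const, nsmul_eq_mul]
      have h3 : (univ.erase (∅ : Finset (Fin r))).card ≤ 2 ^ r := by
        refine (Finset.card_le_card (Finset.erase_subset _ _)).trans ?_
        rw [Finset.card_univ, Fintype.card_finset, Fintype.card_fin]
      exact mul_le_mul_of_nonneg_right (by exact_mod_cast h3) (by positivity)
  -- the indicator
  have hind : |2 ^ r * ((A.filter (fun n => ∀ i, jacobiSym (c i n) p = 1)).card : ℝ)
      - ∑ n ∈ A, ∏ i, (1 + (jacobiSym (c i n) p : ℝ))|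
      ≤ 2 ^ r * ((A.filter (fun n => ∃ i, jacobiSym (c i n) p = 0)).card : ℝ) := by
    rw [Finset.card_filter, Finset.card_filter]
    push_cast
    rw [Finset.mul_sum, ← Finset.sum_sub_distrib, Finset.mul_sum]
    refine (Finset.abs_sum_le_sum_abs _ _).trans (Finset.sum_le_sum fun n _ => ?_)
    have hle : ∀ i, (1 + (jacobiSym (c i n) p : ℝ)) ≤ 2 ∧ 0 ≤ (1 + (jacobiSym (c i n) p : ℝ)) := by
      intro i
      rcases jacobiSym.trichotomy (c i n) p with h | h | h <;> rw [h] <;> norm_num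
    have hle2 : ∏ i, (1 + (jacobiSym (c i n) p : ℝ)) ≤ 2 ^ r := by
      calc ∏ i, (1 + (jacobiSym (c i n) p : ℝ)) ≤ ∏ _i : Fin r, (2 : ℝ) :=
            Finset.prod_le_prod (fun i _ => (hle i).2) (fun i _ => (hle i).1)
        _ = 2 ^ r := by simp
    have hge : 0 ≤ ∏ i, (1 + (jacobiSym (c i n) p : ℝ)) := Finset.prod_nonneg fun i _ => (hle i).2
    by_cases h1 : ∀ i, jacobiSym (c i n) p = 1
    · rw [if_pos h1, if_neg (by push Not; intro i; rw [h1 i]; norm_num)]
      have : ∏ i, (1 + (jacobiSym (c i n) p : ℝ)) = 2 ^ r := by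
        have h2 : ∀ i ∈ univ, (1 + (jacobiSym (c i n) p : ℝ)) = 2 := by
          intro i _; rw [h1 i]; norm_num
        rw [Finset.prod_congr rfl h2]; simp
      rw [this]; simp
    · rw [if_neg h1]
      by_cases h2 : ∃ i, jacobiSym (c i n) p = 0
      · rw [if_pos h2, mul_zero, zero_sub, abs_neg, abs_of_nonneg hge, mul_one]
        exact hle2
      · rw [if_neg h2]
        push Not at h1 h2
        obtain ⟨i, hi⟩ := h1
        have hm1 : jacobiSym (c i n) p = -1 := by
          rcases jacobiSym.trichotomy (c i n) p with h' | h' | h'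
          · exact absurd h' (h2 i)
          · exact absurd h' hi
          · exact h'
        have : ∏ i, (1 + (jacobiSym (c i n) p : ℝ)) = 0 := by
          refine Finset.prod_eq_zero (Finset.mem_univ i) ?_
          rw [hm1]; norm_num
        rw [this]; simp
  have h2r : (0 : ℝ) < 2 ^ r := by positivity
  have h3 : |2 ^ r * (((A.filter (fun n => ∀ i, jacobiSym (c i n) p = 1)).card : ℝ)
      - (1 / 2) ^ r * A.card)| ≤ 2 ^ r * (η * A.card + Z) := by
    have h4 : 2 ^ r * (((A.filter (fun n => ∀ i, jacobiSym (c i n) p = 1)).card : ℝ)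
      - (1 / 2) ^ r * A.card) = (2 ^ r * ((A.filter (fun n => ∀ i, jacobiSym (c i n) p = 1)).card : ℝ)
      - ∑ n ∈ A, ∏ i, (1 + (jacobiSym (c i n) p : ℝ)))
        + (∑ n ∈ A, ∏ i, (1 + (jacobiSym (c i n) p : ℝ)) - A.card) := by
      have : (2 : ℝ) ^ r * (1 / 2) ^ r = 1 := by rw [← mul_pow]; norm_num
      rw [mul_sub, ← mul_assoc, this]; ring
    rw [h4]
    refine (abs_add_le _ _).trans ?_
    have h5 := mul_le_mul_of_nonneg_left hZ h2r.le
    linarith
  rw [abs_mul, abs_of_pos h2r] at h3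
  exact le_of_mul_le_mul_left h3 h2r

/-- the numerical iteration -/
theorem iterate (t : ℕ) (a : ℕ → ℝ) (θ S η Z m : ℝ) (hθ : 0 < θ) (hθ1 : θ ≤ 1) (hS : 0 < S)
    (hη : 0 ≤ η) (hZ : 0 ≤ Z) (h0 : |a 0 - S| ≤ S / 16)
    (hstep : ∀ j < t, m ≤ a j → |a (j + 1) - θ * a j| ≤ η * a j + Z)
    (hm : m ≤ θ ^ t * S / 2)
    (hηt : t * (2 * (η / θ) + Z / (θ ^ t * S)) ≤ 3 / 16) :
    |a t - θ ^ t * S| ≤ θ ^ t * S / 4 := by
  have key : ∀ j ≤ t, |a j - θ ^ j * S| ≤ θ ^ j * S * (1 / 16 + j * (2 * (η / θ) + Z / (θ ^ t * S))) := by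
    intro j
    induction j with
    | zero =>
      intro _
      simp only [pow_zero, one_mul, Nat.cast_zero, zero_mul, add_zero]
      linarith
    | succ j ih =>
      intro hj
      have hj' : j < t := hj
      have h1 := ih hj'.le
      have hpj : 0 < θ ^ j * S := by positivity
      have hpt : 0 < θ ^ t * S := by positivity
      have hle : θ ^ t * S ≤ θ ^ j * S :=
        mul_le_mul_of_nonneg_right (pow_le_pow_of_le_one hθ.le hθ1 hj'.le) hS.le
      have hw0 : 0 ≤ 2 * (η / θ) + Z / (θ ^ t * S) := by positivity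
      have hjt : (j : ℝ) * (2 * (η / θ) + Z / (θ ^ t * S)) ≤ 3 / 16 := by
        refine le_trans ?_ hηt
        exact mul_le_mul_of_nonneg_right (by exact_mod_cast hj'.le) hw0
      have h2 : |a j - θ ^ j * S| ≤ θ ^ j * S / 4 := by
        refine h1.trans ?_
        have : 1 / 16 + (j : ℝ) * (2 * (η / θ) + Z / (θ ^ t * S)) ≤ 1 / 4 := by linarith
        nlinarith
      have h3 := abs_le.1 h2
      have hma : m ≤ a j := by linarith
      have h4 := hstep j hj' hma
      have haj : a j ≤ 2 * (θ ^ j * S) := by linarith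
      have h5 : |a (j + 1) - θ ^ (j + 1) * S| ≤ η * a j + Z + θ * |a j - θ ^ j * S| := by
        have h6 : a (j + 1) - θ ^ (j + 1) * S = (a (j + 1) - θ * a j) + θ * (a j - θ ^ j * S) := by
          rw [pow_succ]; ring
        rw [h6]
        refine (abs_add_le _ _).trans ?_
        rw [abs_mul, abs_of_pos hθ]
        linarith
      have h7 : η * a j ≤ θ ^ (j + 1) * S * (2 * (η / θ)) := by
        have h8 : θ ^ (j + 1) * S * (2 * (η / θ)) = η * (2 * (θ ^ j * S)) := by
          rw [pow_succ]; field_simp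
        rw [h8]
        exact mul_le_mul_of_nonneg_left haj hη
      have h8 : Z ≤ θ ^ (j + 1) * S * (Z / (θ ^ t * S)) := by
        have hle' : θ ^ t * S ≤ θ ^ (j + 1) * S :=
          mul_le_mul_of_nonneg_right (pow_le_pow_of_le_one hθ.le hθ1 hj) hS.le
        calc Z = (θ ^ t * S) * (Z / (θ ^ t * S)) := by field_simp
          _ ≤ θ ^ (j + 1) * S * (Z / (θ ^ t * S)) := mul_le_mul_of_nonneg_right hle' (by positivity)
      have h9 : θ * |a j - θ ^ j * S| ≤ θ ^ (j + 1) * S * (1 / 16 + j * (2 * (η / θ) + Z / (θ ^ t * S))) := by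
        calc θ * |a j - θ ^ j * S| ≤ θ * (θ ^ j * S * (1 / 16 + j * (2 * (η / θ) + Z / (θ ^ t * S)))) :=
              mul_le_mul_of_nonneg_left h1 hθ.le
          _ = _ := by rw [pow_succ]; ring
      refine h5.trans ?_
      push_cast
      have : θ ^ (j + 1) * S * (1 / 16 + (j + 1) * (2 * (η / θ) + Z / (θ ^ t * S)))
          = θ ^ (j + 1) * S * (2 * (η / θ)) + θ ^ (j + 1) * S * (Z / (θ ^ t * S))
            + θ ^ (j + 1) * S * (1 / 16 + j * (2 * (η / θ) + Z / (θ ^ t * S))) := by ring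
      rw [this]
      linarith
  have h1 := key t le_rfl
  refine h1.trans ?_
  have hpt : 0 < θ ^ t * S := by positivity
  nlinarith

end Pool.Agent.Lib.MP_e426f4_ag.TWL
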