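import Mathlib
import Pool.Agent.Lib.MP_6179b0_nt.W.SBound

/-!
# TWL: consequences of the Weil bound for quadratic characters (W1), (W2)
-/

namespace Pool.Agent.Lib.MP_e426f4_ag.TWL

open Finset Polynomial

/-- the Jacobi symbol as the quadratic character of `ZMod q` -/
theorem jac_eq (q : ℕ) [Fact q.Prime] (f : ℤ[X]) (x : ℤ) :
    jacobiSym (f.eval x) q
      = quadraticChar (ZMod q) ((f.map (Int.castRingHom (ZMod q))).eval (x : ZMod q)) := by
  rw [← jacobiSym.legendreSym.to_jacobiSym, legendreSym]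
  congr 1
  rw [Polynomial.eval_intCast_map]
  rfl

theorem sum_range_zmod (q : ℕ) [NeZero q] (g : ZMod q → ℝ) :
    ∑ x ∈ range q, g (x : ZMod q) = ∑ x : ZMod q, g x := by
  refine Finset.sum_bij' (fun x _ => (x : ZMod q)) (fun x _ => x.val) ?_ ?_ ?_ ?_ ?_
  · intro x _; exact mem_univ _
  · intro x _; exact mem_range.2 (ZMod.val_lt x)
  · intro x hx; exact ZMod.val_cast_of_lt (mem_range.1 hx)
  · intro x _; exact ZMod.natCast_zmod_val x
  · intro x _; rfl

/-- the Weil bound for integer polynomials, squarefree and non-constant modulo `q` -/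
theorem weil_int (q : ℕ) [Fact q.Prime] (hq2 : q ≠ 2) (f : ℤ[X])
    (hsq : Squarefree (f.map (Int.castRingHom (ZMod q))))
    (hd : 1 ≤ (f.map (Int.castRingHom (ZMod q))).natDegree) (D : ℕ)
    (hD : (f.map (Int.castRingHom (ZMod q))).natDegree ≤ D) :
    |∑ x ∈ range q, (jacobiSym (f.eval (x : ℤ)) q : ℝ)| ≤ (20 * D + 40) * √(q : ℝ) := by
  have hF : ringChar (ZMod q) ≠ 2 := by rw [ZMod.ringChar_zmod_n]; exact hq2
  have h1 := Pool.Agent.Lib.MP_6179b0_nt.W.stepanov_bound (ZMod q) hF _ hsq hd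
  rw [ZMod.card] at h1
  have h2 : ∑ x ∈ range q, (jacobiSym (f.eval (x : ℤ)) q : ℝ)
      = ∑ x : ZMod q, (quadraticChar (ZMod q) ((f.map (Int.castRingHom (ZMod q))).eval x) : ℝ) := by
    rw [← sum_range_zmod q (fun x => (quadraticChar (ZMod q) ((f.map (Int.castRingHom (ZMod q))).eval x) : ℝ))]
    refine Finset.sum_congr rfl fun x _ => ?_
    rw [jac_eq]
    push_cast
    rfl
  rw [h2]
  refine h1.trans ?_
  refine mul_le_mul_of_nonneg_right ?_ (Real.sqrt_nonneg _)
  have : ((f.map (Int.castRingHom (ZMod q))).natDegree : ℝ) ≤ D := by exact_mod_cast hD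
  linarith

/-- the number of zeros modulo `q` -/
theorem zeros_le (q : ℕ) [Fact q.Prime] (f : ℤ[X])
    (h0 : f.map (Int.castRingHom (ZMod q)) ≠ 0) (D : ℕ)
    (hD : (f.map (Int.castRingHom (ZMod q))).natDegree ≤ D) :
    ((range q).filter (fun x : ℕ => jacobiSym (f.eval (x : ℤ)) q = 0)).card ≤ D := by
  classical
  refine le_trans ?_ hD
  refine le_trans ?_ (Polynomial.card_roots' _)
  refine le_trans ?_ (Multiset.toFinset_card_le _)
  refine Finset.card_le_card_of_injOn (fun x : ℕ => (x : ZMod q)) ?_ ?_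
  · intro x hx
    rw [Finset.mem_coe, mem_filter] at hx
    rw [Finset.mem_coe, Multiset.mem_toFinset, mem_roots h0, IsRoot.def]
    have h1 := hx.2
    rw [jac_eq, quadraticChar_eq_zero_iff] at h1
    exact_mod_cast h1
  · intro x hx y hy hxy
    rw [Finset.mem_coe, mem_filter, mem_range] at hx hy
    have h1 : ((x : ZMod q)).val = ((y : ZMod q)).val := congrArg ZMod.val hxy
    rwa [ZMod.val_cast_of_lt hx.1, ZMod.val_cast_of_lt hy.1] at h1

/-- **(W2)** -/
theorem W2 (D : ℕ) : ∃ w2 : ℕ, 2 ≤ w2 ∧ ∀ q : ℕ, q.Prime → w2 < q → ∀ f : ℤ[X],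
    Squarefree (f.map (Int.castRingHom (ZMod q))) →
    1 ≤ (f.map (Int.castRingHom (ZMod q))).natDegree →
    (f.map (Int.castRingHom (ZMod q))).natDegree ≤ D → ∀ ε : ℤ, (ε = 1 ∨ ε = -1) →
    (((range q).filter (fun x : ℕ => jacobiSym (f.eval (x : ℤ)) q = 0 ∨
      jacobiSym (f.eval (x : ℤ)) q = ε)).card : ℝ) ≤ 0.55 * q := by
  refine ⟨(20 * (20 * D + 41)) ^ 2 + 2, by omega, ?_⟩
  intro q hq hw f hsq hd hD ε hε
  have : Fact q.Prime := ⟨hq⟩
  have hq2 : q ≠ 2 := by
    have : 0 < (20 * (20 * D + 41)) ^ 2 := by positivity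
    omega
  have hqpos : (0 : ℝ) < q := by exact_mod_cast hq.pos
  have h1 := weil_int q hq2 f hsq hd D hD
  have h0 : f.map (Int.castRingHom (ZMod q)) ≠ 0 := hsq.ne_zero
  have h2 := zeros_le q f h0 D hD
  -- counting
  have hcount : (((range q).filter (fun x : ℕ => jacobiSym (f.eval (x : ℤ)) q = 0 ∨
      jacobiSym (f.eval (x : ℤ)) q = ε)).card : ℝ)
      ≤ (q + ε * ∑ x ∈ range q, (jacobiSym (f.eval (x : ℤ)) q : ℝ)) / 2
        + (((range q).filter (fun x : ℕ => jacobiSym (f.eval (x : ℤ)) q = 0)).card : ℝ) / 2 := by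
    rw [Finset.card_filter, Finset.card_filter]
    push_cast
    rw [Finset.mul_sum]
    have h3 : (q : ℝ) = ∑ x ∈ range q, (1 : ℝ) := by simp
    conv_rhs => rw [h3]
    rw [← Finset.sum_add_distrib, Finset.sum_div, Finset.sum_div, ← Finset.sum_add_distrib]
    refine Finset.sum_le_sum fun x _ => ?_
    rcases jacobiSym.trichotomy (f.eval (x : ℤ)) q with h | h | h <;>
      rcases hε with h' | h' <;> rw [h, h'] <;> norm_num
  have hs : √(q : ℝ) * √(q : ℝ) = q := Real.mul_self_sqrt hqpos.le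
  have hs0 : 0 ≤ √(q : ℝ) := Real.sqrt_nonneg _
  have hsl : (20 * (20 * D + 41) : ℝ) ≤ √(q : ℝ) := by
    apply Real.le_sqrt_of_sq_le
    have : ((20 * (20 * D + 41)) ^ 2 : ℕ) ≤ q := by omega
    exact_mod_cast this
  have h4 : (ε : ℝ) * ∑ x ∈ range q, (jacobiSym (f.eval (x : ℤ)) q : ℝ) ≤ (20 * D + 40) * √(q : ℝ) := by
    refine le_trans ?_ h1
    rcases hε with h | h
    · rw [h]; push_cast; rw [one_mul]; exact le_abs_self _
    · rw [h]; push_cast; rw [neg_mul, one_mul]; exact neg_le_abs _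
  have h5 : (((range q).filter (fun x : ℕ => jacobiSym (f.eval (x : ℤ)) q = 0)).card : ℝ) ≤ D := by
    exact_mod_cast h2
  have h6 : (20 * (D : ℝ) + 40) * √(q : ℝ) ≤ q / 20 - √(q : ℝ) := by nlinarith
  have h7 : (D : ℝ) ≤ √(q : ℝ) := by
    have : (0 : ℝ) ≤ D := Nat.cast_nonneg D
    nlinarith
  have h8 := hcount
  norm_num at h8 ⊢
  nlinarith

/-- **(W1)** -/
theorem W1 (r D : ℕ) : ∃ w1 : ℕ, 2 ≤ w1 ∧ ∀ q : ℕ, q.Prime → w1 < q → ∀ c : Fin r → ℤ[X],
    Squarefree ((∏ i, c i).map (Int.castRingHom (ZMod q))) →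
    (∀ i, 1 ≤ ((c i).map (Int.castRingHom (ZMod q))).natDegree) →
    ((∏ i, c i).map (Int.castRingHom (ZMod q))).natDegree ≤ D →
    ∃ x ∈ range q, ∀ i, jacobiSym ((c i).eval (x : ℤ)) q = 1 := by
  refine ⟨(2 ^ r * (20 * D + 41)) ^ 2 + 2, by omega, ?_⟩
  intro q hq hw c hsq hdeg hD
  classical
  have : Fact q.Prime := ⟨hq⟩
  have hq2 : q ≠ 2 := by
    have : 0 < (2 ^ r * (20 * D + 41)) ^ 2 := by positivity
    omega
  have hqpos : (0 : ℝ) < q := by exact_mod_cast hq.pos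
  by_contra hcon
  push Not at hcon
  -- for `I` non-empty the product over `I` is admissible
  have hI : ∀ I : Finset (Fin r), I.Nonempty →
      |∑ x ∈ range q, (jacobiSym ((∏ i ∈ I, c i).eval (x : ℤ)) q : ℝ)| ≤ (20 * D + 40) * √(q : ℝ) := by
    intro I hne
    have hdvd : (∏ i ∈ I, c i).map (Int.castRingHom (ZMod q)) ∣ (∏ i, c i).map (Int.castRingHom (ZMod q)) := by
      refine Polynomial.map_dvd _ ?_
      exact Finset.prod_dvd_prod_of_subset _ _ _ (Finset.subset_univ _)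
    have h0 : (∏ i, c i).map (Int.castRingHom (ZMod q)) ≠ 0 := hsq.ne_zero
    refine weil_int q hq2 _ (hsq.squarefree_of_dvd hdvd) ?_ D ((natDegree_le_of_dvd hdvd h0).trans hD)
    obtain ⟨i, hi⟩ := hne
    refine (hdeg i).trans ?_
    have hdvd2 : (c i).map (Int.castRingHom (ZMod q)) ∣ (∏ i ∈ I, c i).map (Int.castRingHom (ZMod q)) :=
      Polynomial.map_dvd _ (Finset.dvd_prod_of_mem _ hi)
    refine natDegree_le_of_dvd hdvd2 ?_
    exact (hsq.squarefree_of_dvd hdvd).ne_zero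
  -- expand the product
  have hexp : ∑ x ∈ range q, ∏ i, (1 + (jacobiSym ((c i).eval (x : ℤ)) q : ℝ))
      = ∑ I : Finset (Fin r), ∑ x ∈ range q, (jacobiSym ((∏ i ∈ I, c i).eval (x : ℤ)) q : ℝ) := by
    rw [Finset.sum_comm]
    refine Finset.sum_congr rfl fun x _ => ?_
    have h1 := Finset.prod_add (fun i : Fin r => (jacobiSym ((c i).eval (x : ℤ)) q : ℝ)) (fun _ => (1 : ℝ)) univ
    have h2 : ∏ i, (1 + (jacobiSym ((c i).eval (x : ℤ)) q : ℝ))
        = ∏ i, ((jacobiSym ((c i).eval (x : ℤ)) q : ℝ) + 1) :=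
      Finset.prod_congr rfl fun i _ => add_comm _ _
    rw [h2, h1, Finset.powerset_univ]
    refine Finset.sum_congr rfl fun I _ => ?_
    rw [Finset.prod_const_one, mul_one, eval_prod]
    have h3 : ∀ J : Finset (Fin r), jacobiSym (∏ i ∈ J, (c i).eval (x : ℤ)) q
        = ∏ i ∈ J, jacobiSym ((c i).eval (x : ℤ)) q := by
      intro J
      induction J using Finset.induction_on with
      | empty => simp [jacobiSym.one_left]
      | insert a s ha ih => rw [Finset.prod_insert ha, Finset.prod_insert ha, jacobiSym.mul_left, ih]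
    rw [h3]; push_cast; rfl
  have hlow : (q : ℝ) - 2 ^ r * ((20 * D + 40) * √(q : ℝ))
      ≤ ∑ x ∈ range q, ∏ i, (1 + (jacobiSym ((c i).eval (x : ℤ)) q : ℝ)) := by
    rw [hexp, ← Finset.add_sum_erase univ _ (Finset.mem_univ (∅ : Finset (Fin r)))]
    have h1 : ∑ x ∈ range q, (jacobiSym ((∏ i ∈ (∅ : Finset (Fin r)), c i).eval (x : ℤ)) q : ℝ) = q := by
      simp [jacobiSym.one_left]
    rw [h1]
    have h2 : |∑ I ∈ univ.erase (∅ : Finset (Fin r)),
        ∑ x ∈ range q, (jacobiSym ((∏ i ∈ I, c i).eval (x : ℤ)) q : ℝ)| ≤ 2 ^ r * ((20 * D + 40) * √(q : ℝ)) := by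
      refine (Finset.abs_sum_le_sum_abs _ _).trans ?_
      refine (Finset.sum_le_sum fun I hI' => hI I ?_).trans ?_
      · rw [Finset.mem_erase] at hI'
        exact Finset.nonempty_iff_ne_empty.2 hI'.1
      · rw [Finset.sum_const, nsmul_eq_mul]
        refine mul_le_mul_of_nonneg_right ?_ (by positivity)
        have h3 : (univ.erase (∅ : Finset (Fin r))).card ≤ 2 ^ r := by
          refine (Finset.card_le_card (Finset.erase_subset _ _)).trans ?_
          rw [Finset.card_univ, Fintype.card_finset, Fintype.card_fin]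
        exact_mod_cast h3
    have h3 := neg_abs_le (∑ I ∈ univ.erase (∅ : Finset (Fin r)),
        ∑ x ∈ range q, (jacobiSym ((∏ i ∈ I, c i).eval (x : ℤ)) q : ℝ))
    linarith
  -- upper bound under the assumption
  have hup : ∑ x ∈ range q, ∏ i, (1 + (jacobiSym ((c i).eval (x : ℤ)) q : ℝ)) ≤ 2 ^ r * D := by
    have h0 : (∏ i, c i).map (Int.castRingHom (ZMod q)) ≠ 0 := hsq.ne_zero
    have hz := zeros_le q (∏ i, c i) h0 D hD
    have h1 : ∀ x ∈ range q, ∏ i, (1 + (jacobiSym ((c i).eval (x : ℤ)) q : ℝ))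
        ≤ if jacobiSym ((∏ i, c i).eval (x : ℤ)) q = 0 then (2 : ℝ) ^ r else 0 := by
      intro x hx
      have hle : ∀ i, (1 + (jacobiSym ((c i).eval (x : ℤ)) q : ℝ)) ≤ 2 ∧
          0 ≤ (1 + (jacobiSym ((c i).eval (x : ℤ)) q : ℝ)) := by
        intro i
        rcases jacobiSym.trichotomy ((c i).eval (x : ℤ)) q with h | h | h <;> rw [h] <;> norm_num
      have hle2 : ∏ i, (1 + (jacobiSym ((c i).eval (x : ℤ)) q : ℝ)) ≤ 2 ^ r := by
        calc ∏ i, (1 + (jacobiSym ((c i).eval (x : ℤ)) q : ℝ)) ≤ ∏ _i : Fin r, (2 : ℝ) :=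
              Finset.prod_le_prod (fun i _ => (hle i).2) (fun i _ => (hle i).1)
          _ = 2 ^ r := by simp
      split_ifs with h
      · exact hle2
      · -- some `J(c_i(x)|q) ≠ 1`, not zero, so `-1`
        obtain ⟨i, hi⟩ := hcon x hx
        have hne : jacobiSym ((c i).eval (x : ℤ)) q ≠ 0 := by
          intro h2
          apply h
          rw [eval_prod, ← Finset.mul_prod_erase univ _ (Finset.mem_univ i), jacobiSym.mul_left, h2, zero_mul]
        have hm1 : jacobiSym ((c i).eval (x : ℤ)) q = -1 := by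
          rcases jacobiSym.trichotomy ((c i).eval (x : ℤ)) q with h' | h' | h'
          · exact absurd h' hne
          · exact absurd h' hi
          · exact h'
        rw [← Finset.mul_prod_erase univ _ (Finset.mem_univ i), hm1]
        norm_num
    refine (Finset.sum_le_sum h1).trans ?_
    rw [← Finset.sum_filter, Finset.sum_const, nsmul_eq_mul, mul_comm]
    refine mul_le_mul_of_nonneg_left ?_ (by positivity)
    exact_mod_cast hz
  have hs : √(q : ℝ) * √(q : ℝ) = q := Real.mul_self_sqrt hqpos.le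
  have hsl : (2 ^ r * (20 * D + 41) : ℝ) < √(q : ℝ) := by
    apply Real.lt_sqrt_of_sq_lt
    have : ((2 ^ r * (20 * D + 41)) ^ 2 : ℕ) < q := by omega
    exact_mod_cast this
  have hr : (1 : ℝ) ≤ 2 ^ r := one_le_pow₀ (by norm_num)
  have hD0 : (0 : ℝ) ≤ D := Nat.cast_nonneg D
  have hspos : 0 < √(q : ℝ) := Real.sqrt_pos.2 hqpos
  have h1 := hlow.trans hup
  have hD' : (D : ℝ) < √(q : ℝ) := by nlinarith
  have h2 : (2 : ℝ) ^ r * D ≤ 2 ^ r * √(q : ℝ) := mul_le_mul_of_nonneg_left hD'.le (by positivity)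
  have h3 : (2 ^ r * (20 * D + 41) : ℝ) * √(q : ℝ) < √(q : ℝ) * √(q : ℝ) :=
    mul_lt_mul_of_pos_right hsl hspos
  nlinarith

end Pool.Agent.Lib.MP_e426f4_ag.TWL
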